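import Pool.Agent.Helper78K9.GO4.Cyc

set_option autoImplicit false

/-!
# Lowest terms of solutions of linear equations over a group ring, with real heights
-/

namespace Pool.Agent.Helper78K9.GO4

open Function
open Pool.Agent.Helper78K9.GO3 (Cl wd wd_period wd_mul path_seq)

section seg
variable {E : Type} {R : E → E → Prop} {w : E → ℝ}

/-- A segment of a walk, which closes up. -/
lemma seg {c : ℕ → E} (n : ℕ) (hR : ∀ k, k < n + 1 → R (c k) (c (k + 1)))
    (hb : c (n + 1) = c 0) : Cl R (n + 1) (fun k => c (k % (n + 1))) ∧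
      PR w (fun k => c (k % (n + 1))) (n + 1) = PR w c (n + 1) := by
  refine ⟨⟨by omega, fun k => ?_, fun k => ?_⟩, ?_⟩
  · simp only
    have h2 : k % (n + 1) < n + 1 := Nat.mod_lt _ (by omega)
    by_cases h : k % (n + 1) = n
    · have h1 : (k + 1) % (n + 1) = 0 := by
        have h4 : k + 1 = (n + 1) * (k / (n + 1)) + (n + 1) := by
          have := Nat.div_add_mod k (n + 1)
          omega
        rw [h4]
        simp
      rw [h1, h, ← hb]
      exact hR n (by omega)
    · have h1 : (k + 1) % (n + 1) = k % (n + 1) + 1 := by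
        rw [Nat.add_mod, Nat.mod_eq_of_lt (show 1 < n + 1 by omega), Nat.mod_eq_of_lt]
        omega
      rw [h1]
      exact hR _ h2
  · simp only
    rw [Nat.add_mod_right]
  · unfold PR
    refine Finset.sum_congr rfl fun k hk => ?_
    simp only
    rw [Nat.mod_eq_of_lt (Finset.mem_range.1 hk)]

end seg

section low
variable {G : Type} [Group G] (h : G →* Multiplicative ℝ)
variable {J P : Type} (row : P → J) (nds : J → Finset P) (N : P → J → ℤ) (y : J → G) (b : P → G)

/-- The relation of the nodes: `p'` contributes to the equation of the row of `p`. -/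
def RR (p p' : P) : Prop := p' ∈ nds (row p') ∧ N p' (row p) ≠ 0

/-- the weight of a node -/
noncomputable def WT (p : P) : ℝ := (h (b p)).toAdd - (h (y (row p))).toAdd

/-- A nontrivial solution of the equations gives a closed walk of nonpositive weight whose product has
finite order, if there are no closed walks of negative weight and those of weight zero can be continued
in only one way. -/
theorem core (hrow : ∀ j, ∀ p ∈ nds j, row p = j) (D : ℤ) (hD : D ≠ 0)
    (z : J →₀ MonoidAlgebra ℤ G)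
    (hz : ∀ j₀ ∈ z.support, D • (z j₀ * MonoidAlgebra.of ℤ G (y j₀)) +
      ∑ j ∈ z.support, ∑ p ∈ nds j, N p j₀ • (z j * MonoidAlgebra.of ℤ G (b p)) = 0)
    (hne : z ≠ 0)
    (hneg : ∀ (m : ℕ) (c : ℕ → P), Cl (RR row nds N) m c → 0 ≤ PR (WT h row y b) c m)
    (ρ : P → P)
    (hρ : ∀ (m : ℕ) (c : ℕ → P), Cl (RR row nds N) m c → PR (WT h row y b) c m ≤ 0 →
      ∀ k, c (k + 1) = ρ (c k)) :
    ∃ (m : ℕ) (c : ℕ → P) (n : ℕ), Cl (RR row nds N) m c ∧ PR (WT h row y b) c m ≤ 0 ∧ 0 < n ∧
      wd (y ∘ row) b c m ^ n = 1 := by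
  classical
  set W : P → ℝ := WT h row y b with hW
  -- the lowest degrees
  have hdeg : ∀ j : J, ∃ ν : ℝ, (∀ g', (z j).coeff g' ≠ 0 → ν ≤ (h g').toAdd) ∧
      (j ∈ z.support → ∃ g, (z j).coeff g ≠ 0 ∧ (h g).toAdd = ν) := by
    intro j
    by_cases hj : j ∈ z.support
    · have h1 : ((z j).coeff.support).Nonempty := by
        rw [Finsupp.support_nonempty_iff]
        intro h0
        exact (Finsupp.mem_support_iff.1 hj) (MonoidAlgebra.coeff_eq_zero.1 h0)
      obtain ⟨g, h2, h3⟩ := Finset.exists_min_image _ (fun g => (h g).toAdd) h1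
      exact ⟨(h g).toAdd, fun g' h4 => h3 g' (Finsupp.mem_support_iff.2 h4),
        fun _ => ⟨g, Finsupp.mem_support_iff.1 h2, rfl⟩⟩
    · refine ⟨0, ?_, fun h1 => absurd h1 hj⟩
      intro g' hg'
      rw [Finsupp.notMem_support_iff.1 hj] at hg'
      exact absurd rfl hg'
  choose ν hν hνg using hdeg
  have hcoeff : ∀ (u : MonoidAlgebra ℤ G) (g x : G),
      (u * MonoidAlgebra.of ℤ G g).coeff x = u.coeff (x * g⁻¹) := by
    intro u g x
    rw [MonoidAlgebra.of_apply, MonoidAlgebra.coeff_mul_single_apply, mul_one]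
  -- every lowest term is compensated
  have hstep : ∀ j ∈ z.support, ∀ g, (z j).coeff g ≠ 0 → (h g).toAdd = ν j →
      ∃ p, row p ∈ z.support ∧ p ∈ nds (row p) ∧ N p j ≠ 0 ∧
        ν (row p) + (h (b p)).toAdd ≤ ν j + (h (y j)).toAdd ∧
        (z (row p)).coeff (g * (y j * (b p)⁻¹)) ≠ 0 := by
    intro j hj g hg hgν
    have h1 := congrArg (fun u : MonoidAlgebra ℤ G => u.coeff (g * y j)) (hz j hj)
    simp only [MonoidAlgebra.coeff_zero, Finsupp.coe_zero, Pi.zero_apply] at h1
    rw [MonoidAlgebra.coeff_add, Finsupp.add_apply, MonoidAlgebra.coeff_smul, Finsupp.smul_apply,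
      hcoeff, mul_inv_cancel_right, MonoidAlgebra.coeff_sum, Finsupp.finsetSum_apply] at h1
    have h2 : ∑ j' ∈ z.support,
        (∑ p ∈ nds j', N p j • (z j' * MonoidAlgebra.of ℤ G (b p))).coeff (g * y j) ≠ 0 := by
      intro h3
      rw [h3, add_zero, smul_eq_mul] at h1
      exact mul_ne_zero hD hg h1
    obtain ⟨j', hj', h3⟩ := Finset.exists_ne_zero_of_sum_ne_zero h2
    rw [MonoidAlgebra.coeff_sum, Finsupp.finsetSum_apply] at h3
    obtain ⟨p, hp, h4⟩ := Finset.exists_ne_zero_of_sum_ne_zero h3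
    rw [MonoidAlgebra.coeff_smul, Finsupp.smul_apply, hcoeff, smul_eq_mul] at h4
    have h5 := left_ne_zero_of_mul h4
    have h6 := right_ne_zero_of_mul h4
    have hr := hrow j' p hp
    subst hr
    rw [mul_assoc] at h6
    refine ⟨p, hj', hp, h5, ?_, h6⟩
    have h7 := hν _ _ h6
    rw [h.map_mul, h.map_mul, h.map_inv, toAdd_mul, toAdd_mul, toAdd_inv] at h7
    linarith
  -- the arcs which contribute to the lowest terms
  let H : P → P → Prop := fun p p' => row p ∈ z.support ∧ row p' ∈ z.support ∧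
    p' ∈ nds (row p') ∧ N p' (row p) ≠ 0 ∧
    ν (row p') + (h (b p')).toAdd ≤ ν (row p) + (h (y (row p))).toAdd
  have hHR : ∀ p p', H p p' → RR row nds N p p' := fun p p' h1 => ⟨h1.2.2.1, h1.2.2.2.1⟩
  -- closed walks along H have nonpositive weight
  have hsh : ∀ (n : ℕ) (c : ℕ → P), c (n + 1) = c 0 → ∀ F : P → ℝ,
      ∑ k ∈ Finset.range (n + 1), F (c (k + 1)) = ∑ k ∈ Finset.range (n + 1), F (c k) := by
    intro n c hb F
    have h3 := Finset.sum_range_succ (fun k => F (c k)) (n + 1)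
    have h4 := Finset.sum_range_succ' (fun k => F (c k)) (n + 1)
    rw [hb] at h3
    linarith
  have hPR : ∀ (n : ℕ) (c : ℕ → P), c (n + 1) = c 0 → PR W c (n + 1) =
      ∑ k ∈ Finset.range (n + 1), (ν (row (c (k + 1))) + (h (b (c (k + 1)))).toAdd) -
      ∑ k ∈ Finset.range (n + 1), (ν (row (c k)) + (h (y (row (c k)))).toAdd) := by
    intro n c hb
    rw [hsh n c hb (fun p => ν (row p) + (h (b p)).toAdd), ← Finset.sum_sub_distrib]
    unfold PR
    refine Finset.sum_congr rfl fun k _ => ?_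
    simp only [hW, WT]
    ring
  have hcl : ∀ (n : ℕ) (c : ℕ → P), (∀ k, k < n + 1 → H (c k) (c (k + 1))) → c (n + 1) = c 0 →
      PR W c (n + 1) ≤ 0 := by
    intro n c hc hb
    rw [hPR n c hb]
    have h1 : ∑ k ∈ Finset.range (n + 1), (ν (row (c (k + 1))) + (h (b (c (k + 1)))).toAdd) ≤
        ∑ k ∈ Finset.range (n + 1), (ν (row (c k)) + (h (y (row (c k)))).toAdd) :=
      Finset.sum_le_sum fun k hk => (hc k (Finset.mem_range.1 hk)).2.2.2.2
    linarith
  -- a terminal strongly connected set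
  let NS : Finset P := z.support.biUnion nds
  have hNS : ∀ p, p ∈ NS ↔ row p ∈ z.support ∧ p ∈ nds (row p) := by
    intro p
    simp only [NS, Finset.mem_biUnion]
    constructor
    · rintro ⟨j, hj, hp⟩
      have h1 := hrow j p hp
      subst h1
      exact ⟨hj, hp⟩
    · rintro ⟨h1, h2⟩
      exact ⟨_, h1, h2⟩
  have hNSne : NS.Nonempty := by
    obtain ⟨j, hj⟩ := Finsupp.support_nonempty_iff.2 hne
    obtain ⟨g, hg, hgν⟩ := hνg j hj
    obtain ⟨p, h1, h2, -⟩ := hstep j hj g hg hgν
    exact ⟨p, (hNS p).2 ⟨h1, h2⟩⟩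
  let RS : P → Finset P := fun x => NS.filter fun e => Relation.ReflTransGen H x e
  obtain ⟨x₀, hx₀, hmin⟩ := Finset.exists_min_image NS (fun x => (RS x).card) hNSne
  have hback : ∀ e, Relation.ReflTransGen H x₀ e → Relation.ReflTransGen H e x₀ := by
    intro e he
    have hes : e ∈ NS := by
      rcases Relation.ReflTransGen.cases_tail he with h1 | ⟨d, -, h1⟩
      · rw [h1]
        exact hx₀
      · exact (hNS e).2 ⟨h1.2.1, h1.2.2.1⟩
    have h1 : RS e ⊆ RS x₀ := by
      intro d hd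
      simp only [RS, Finset.mem_filter] at hd ⊢
      exact ⟨hd.1, he.trans hd.2⟩
    have h2 : RS e = RS x₀ := Finset.eq_of_subset_of_card_le h1 (hmin e hes)
    have h3 : x₀ ∈ RS e := by
      rw [h2]
      simp only [RS, Finset.mem_filter]
      exact ⟨hx₀, Relation.ReflTransGen.refl⟩
    simp only [RS, Finset.mem_filter] at h3
    exact h3.2
  -- in this set there is only one arc
  have huniq : ∀ x e, Relation.ReflTransGen H x₀ x → H x e → e = ρ x ∧
      ν (row e) + (h (b e)).toAdd = ν (row x) + (h (y (row x))).toAdd := by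
    intro x e hx hxe
    obtain ⟨n, c, hc0, hcn, hc⟩ := path_seq ((hback e (hx.tail hxe)).trans hx)
    let c' : ℕ → P := fun k => Nat.rec x (fun n _ => c n) k
    have hc'0 : c' 0 = x := rfl
    have hc'1 : ∀ k, c' (k + 1) = c k := fun _ => rfl
    have hc' : ∀ k, k < n + 1 → H (c' k) (c' (k + 1)) := by
      intro k hk
      cases k with
      | zero =>
        rw [hc'1, hc'0, hc0]
        exact hxe
      | succ k =>
        rw [hc'1, hc'1]
        exact hc k (by omega)
    have hcb : c' (n + 1) = c' 0 := by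
      rw [hc'1, hc'0, hcn]
    clear_value c'
    obtain ⟨hcw, hcw'⟩ := seg (R := RR row nds N) (w := W) n
      (fun k hk => hHR _ _ (hc' k hk)) hcb
    have hle : PR W (fun k => c' (k % (n + 1))) (n + 1) ≤ 0 := by
      rw [hcw']
      exact hcl n c' hc' hcb
    constructor
    · have h1 := hρ _ _ hcw hle 0
      simp only [zero_add, Nat.zero_mod] at h1
      by_cases hn : n = 0
      · have h2 : x = e := by rw [← hcn, ← hc0, hn]
        rw [hn] at h1
        simp only [zero_add, Nat.mod_self, hc'0] at h1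
        rw [← h2]
        exact h1
      · rw [Nat.mod_eq_of_lt (by omega), hc'0] at h1
        have h3 : c' 1 = e := by
          have h4 := hc'1 0
          rw [hc0] at h4
          exact h4
        rw [h3] at h1
        exact h1
    · -- equality
      by_contra hne'
      have hlt : ν (row e) + (h (b e)).toAdd < ν (row x) + (h (y (row x))).toAdd :=
        lt_of_le_of_ne hxe.2.2.2.2 hne'
      have h1 : ∑ k ∈ Finset.range (n + 1), (ν (row (c' (k + 1))) + (h (b (c' (k + 1)))).toAdd) <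
          ∑ k ∈ Finset.range (n + 1), (ν (row (c' k)) + (h (y (row (c' k)))).toAdd) := by
        refine Finset.sum_lt_sum (fun k hk => (hc' k (Finset.mem_range.1 hk)).2.2.2.2)
          ⟨0, Finset.mem_range.2 (by omega), ?_⟩
        rw [hc'1, hc'0, hc0]
        exact hlt
      have h2 := hneg _ _ hcw
      rw [hcw', hPR n c' hcb] at h2
      linarith
  -- the lowest terms along the walk
  have hx₀s := (hNS x₀).1 hx₀
  obtain ⟨g₀, hg₀, hg₀ν⟩ := hνg (row x₀) hx₀s.1
  have hnext : ∀ x g, Relation.ReflTransGen H x₀ x → row x ∈ z.support →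
      (z (row x)).coeff g ≠ 0 → (h g).toAdd = ν (row x) →
      H x (ρ x) ∧ (z (row (ρ x))).coeff (g * (y (row x) * (b (ρ x))⁻¹)) ≠ 0 ∧
        (h (g * (y (row x) * (b (ρ x))⁻¹))).toAdd = ν (row (ρ x)) := by
    intro x g hx hxs hg hgν
    obtain ⟨e, e1, e2, e3, e4, e5⟩ := hstep (row x) hxs g hg hgν
    have he : H x e := ⟨hxs, e1, e2, e3, e4⟩
    obtain ⟨h1, h2⟩ := huniq x e hx he
    rw [← h1]
    refine ⟨he, e5, ?_⟩
    rw [h.map_mul, h.map_mul, h.map_inv, toAdd_mul, toAdd_mul, toAdd_inv]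
    linarith
  let c : ℕ → P := fun k => ρ^[k] x₀
  have hc1 : ∀ k, c (k + 1) = ρ (c k) := fun k => Function.iterate_succ_apply' ρ k x₀
  have hwalk : ∀ k, Relation.ReflTransGen H x₀ (c k) ∧ row (c k) ∈ z.support ∧
      (z (row (c k))).coeff (g₀ * wd (y ∘ row) b c k) ≠ 0 ∧
      (h (g₀ * wd (y ∘ row) b c k)).toAdd = ν (row (c k)) := by
    intro k
    induction k with
    | zero =>
      refine ⟨Relation.ReflTransGen.refl, hx₀s.1, ?_, ?_⟩
      · simp only [wd, mul_one]
        exact hg₀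
      · simp only [wd, mul_one]
        exact hg₀ν
    | succ k ih =>
      obtain ⟨i1, i2, i3, i4⟩ := ih
      obtain ⟨j1, j2, j3⟩ := hnext _ _ i1 i2 i3 i4
      simp only [wd, Function.comp_apply]
      rw [hc1, ← mul_assoc]
      exact ⟨i1.tail j1, j1.2.1, j2, j3⟩
  have hcNS : ∀ k, c k ∈ NS := by
    intro k
    cases k with
    | zero => exact hx₀
    | succ k =>
      obtain ⟨i1, i2, i3, i4⟩ := hwalk k
      obtain ⟨j1, -, -⟩ := hnext _ _ i1 i2 i3 i4
      rw [hc1]
      exact (hNS _).2 ⟨j1.2.1, j1.2.2.1⟩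
  -- the walk is closed
  obtain ⟨a, a', haa, he⟩ : ∃ a a' : ℕ, a < a' ∧ c a = c a' := by
    let F : ℕ → NS := fun k => ⟨c k, hcNS k⟩
    obtain ⟨a, a', hab, he⟩ := Finite.exists_ne_map_eq_of_infinite F
    have he' : c a = c a' := congrArg Subtype.val he
    rcases lt_or_gt_of_ne hab with h1 | h1
    · exact ⟨a, a', h1, he'⟩
    · exact ⟨a', a, h1, he'.symm⟩
  -- shift the walk
  let d : ℕ → P := fun k => c (a + k)
  obtain ⟨m, hm⟩ : ∃ m, a' = a + (m + 1) := ⟨a' - a - 1, by omega⟩
  have hd1 : ∀ k, d (k + 1) = ρ (d k) := fun k => hc1 (a + k)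
  have hdp : ∀ k, d (k + (m + 1)) = d k := by
    intro k
    induction k with
    | zero =>
      simp only [d, zero_add, add_zero]
      rw [he, hm]
    | succ k ih =>
      have h1 : k + 1 + (m + 1) = (k + (m + 1)) + 1 := by ring
      rw [h1, hd1, hd1, ih]
  have hdH : ∀ k, H (d k) (d (k + 1)) := by
    intro k
    obtain ⟨i1, i2, i3, i4⟩ := hwalk (a + k)
    rw [hd1]
    exact (hnext _ _ i1 i2 i3 i4).1
  have hdb : d (m + 1) = d 0 := by
    have h1 := hdp 0
    rwa [zero_add] at h1
  have hdcl : Cl (RR row nds N) (m + 1) d := ⟨by omega, fun k => hHR _ _ (hdH k), hdp⟩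
  -- infinitely many elements of a finite support
  have h1 : ∀ k, wd (y ∘ row) b c (a + k) = wd (y ∘ row) b c a * wd (y ∘ row) b d k := by
    intro k
    induction k with
    | zero => simp [wd]
    | succ k ih =>
      rw [← add_assoc]
      simp only [wd]
      rw [ih, mul_assoc]
      rfl
  have h3 : ∀ n, c (a + n * (m + 1)) = d 0 := by
    intro n
    change d (n * (m + 1)) = d 0
    induction n with
    | zero => simp
    | succ n ih => rw [Nat.succ_mul, hdp, ih]
  have hsup : ∀ n, (z (row (d 0))).coeff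
      (g₀ * wd (y ∘ row) b c a * wd (y ∘ row) b d (m + 1) ^ n) ≠ 0 := by
    intro n
    have h2 := (hwalk (a + n * (m + 1))).2.2.1
    rwa [h1, wd_mul (y ∘ row) b d hdp, ← mul_assoc, h3] at h2
  obtain ⟨n, n', hnn, hen⟩ : ∃ n n' : ℕ, n < n' ∧
      wd (y ∘ row) b d (m + 1) ^ n = wd (y ∘ row) b d (m + 1) ^ n' := by
    let F : ℕ → (z (row (d 0))).coeff.support := fun n =>
      ⟨g₀ * wd (y ∘ row) b c a * wd (y ∘ row) b d (m + 1) ^ n,
        Finsupp.mem_support_iff.2 (hsup n)⟩
    obtain ⟨n, n', hab, he⟩ := Finite.exists_ne_map_eq_of_infinite F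
    have he' : g₀ * wd (y ∘ row) b c a * wd (y ∘ row) b d (m + 1) ^ n =
      g₀ * wd (y ∘ row) b c a * wd (y ∘ row) b d (m + 1) ^ n' := congrArg Subtype.val he
    have he'' := mul_left_cancel he'
    rcases lt_or_gt_of_ne hab with h1 | h1
    · exact ⟨n, n', h1, he''⟩
    · exact ⟨n', n, h1, he''.symm⟩
  refine ⟨m + 1, d, n' - n, hdcl, hcl m d (fun k _ => hdH k) hdb, by omega, ?_⟩
  have h4 : wd (y ∘ row) b d (m + 1) ^ n' =
      wd (y ∘ row) b d (m + 1) ^ n * wd (y ∘ row) b d (m + 1) ^ (n' - n) := by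
    rw [← pow_add]
    congr 1
    omega
  rw [h4] at hen
  exact (mul_eq_left.1 hen.symm)

end low

end Pool.Agent.Helper78K9.GO4
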