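import Pool.Agent.Helper78K9.GO4.Defs

set_option autoImplicit false

/-!
# The boundary operator in terms of the corners
-/

namespace Pool.Agent.Helper78K9.GO4

open Function
open Pool.Agent.R655.LI
open Pool.Agent.Helper777.Prof (Wr mag mag_m)

section fox
variable (K : Cx)

/-- a group element in the group ring -/
noncomputable abbrev ogw (w : FreeGroup K.V) : MonoidAlgebra ℤ K.Pi :=
  MonoidAlgebra.of ℤ K.Pi (PresentedGroup.mk (Set.range K.r) w)

lemma fox_one : fox K 1 = 0 := by
  classical
  unfold fox
  rw [map_one]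
  rfl

lemma fox_mul (w w' : FreeGroup K.V) (v : K.V) :
    fox K (w * w') v = fox K w v + ogw K w * fox K w' v := by
  classical
  unfold fox
  rw [map_mul, Wr.mul_v, mag_m]
  rfl

open Classical in
lemma fox_of (x v : K.V) : fox K (FreeGroup.of x) v = if x = v then 1 else 0 := by
  unfold fox mag
  rw [FreeGroup.lift_apply_of]
  simp only [Pi.single_apply]
  by_cases h : v = x
  · rw [if_pos h, if_pos h.symm]
  · rw [if_neg h, if_neg (Ne.symm h)]

variable [Fintype K.V] (F : K.V → ℤ)

/-- the pairing of a chain with a function -/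
noncomputable def SF (w : FreeGroup K.V) : MonoidAlgebra ℤ K.Pi :=
  ∑ v, fox K w v * (F v • (ogw K (FreeGroup.of v) - 1))

lemma SF_one : SF K F 1 = 0 := by
  unfold SF
  rw [fox_one]
  simp

lemma SF_mul (w w' : FreeGroup K.V) : SF K F (w * w') = SF K F w + ogw K w * SF K F w' := by
  unfold SF
  rw [Finset.mul_sum, ← Finset.sum_add_distrib]
  refine Finset.sum_congr rfl fun v _ => ?_
  rw [fox_mul, add_mul, mul_assoc]

lemma SF_of (x : K.V) : SF K F (FreeGroup.of x) = F x • (ogw K (FreeGroup.of x) - 1) := by
  classical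
  unfold SF
  simp only [fox_of]
  rw [Finset.sum_eq_single x]
  · rw [if_pos rfl, one_mul]
  · intro v _ hv
    rw [if_neg (Ne.symm hv), zero_mul]
  · intro h
    exact absurd (Finset.mem_univ _) h

omit [Fintype K.V] in
lemma ogw_mul (w w' : FreeGroup K.V) : ogw K (w * w') = ogw K w * ogw K w' := by
  unfold ogw
  rw [map_mul, map_mul]

omit [Fintype K.V] in
lemma ogw_one : ogw K 1 = 1 := by
  unfold ogw
  rw [map_one, map_one]

lemma SF_inv (x : K.V) : SF K F (FreeGroup.of x)⁻¹ = F x • (ogw K (FreeGroup.of x)⁻¹ - 1) := by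
  have h1 := SF_mul K F (FreeGroup.of x)⁻¹ (FreeGroup.of x)
  rw [inv_mul_cancel, SF_one, SF_of, mul_smul_comm, mul_sub, mul_one, ← ogw_mul, inv_mul_cancel,
    ogw_one] at h1
  have h2 := eq_neg_of_add_eq_zero_left h1.symm
  rw [h2, ← smul_neg, neg_sub]

lemma SF_letter (x : K.V × Bool) :
    SF K F (FreeGroup.mk [x]) = F x.1 • (ogw K (FreeGroup.mk [x]) - 1) := by
  obtain ⟨v, b⟩ := x
  cases b
  · have h : (FreeGroup.mk [(v, false)] : FreeGroup K.V) = (FreeGroup.of v)⁻¹ := rfl
    rw [h, SF_inv]
  · have h : (FreeGroup.mk [(v, true)] : FreeGroup K.V) = FreeGroup.of v := rfl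
    rw [h, SF_of]

/-- the value at the `k`-th letter -/
def FV {V : Type} (F : V → ℤ) (l : List (V × Bool)) (k : ℕ) : ℤ :=
  match l[k]? with
  | some x => F x.1
  | none => 0

theorem SF_list (l : List (K.V × Bool)) : SF K F (FreeGroup.mk l) =
    ∑ k ∈ Finset.range l.length, FV F l k •
      (ogw K (FreeGroup.mk (l.take (k + 1))) - ogw K (FreeGroup.mk (l.take k))) := by
  induction l using List.reverseRecOn with
  | nil =>
    have h : (FreeGroup.mk [] : FreeGroup K.V) = 1 := rfl
    rw [h, SF_one]
    simp
  | append_singleton l x ih =>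
    have h1 : (FreeGroup.mk (l ++ [x]) : FreeGroup K.V) = FreeGroup.mk l * FreeGroup.mk [x] := by
      rw [FreeGroup.mul_mk]
    rw [h1, SF_mul, ih, SF_letter, List.length_append, List.length_singleton,
      Finset.sum_range_succ]
    congr 1
    · refine Finset.sum_congr rfl fun k hk => ?_
      have hk' := Finset.mem_range.1 hk
      have h2 : (l ++ [x]).take (k + 1) = l.take (k + 1) := by
        rw [List.take_append_of_le_length (by omega)]
      have h3 : (l ++ [x]).take k = l.take k := by
        rw [List.take_append_of_le_length (by omega)]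
      have h4 : FV F (l ++ [x]) k = FV F l k := by
        unfold FV
        rw [List.getElem?_append_left hk']
      rw [h2, h3, h4]
    · have h2 : (l ++ [x]).take (l.length + 1) = l ++ [x] := by
        rw [List.take_of_length_le]
        simp
      have h3 : (l ++ [x]).take l.length = l := by
        rw [List.take_append_of_le_length le_rfl, List.take_length]
      have h4 : FV F (l ++ [x]) l.length = F x.1 := by
        unfold FV
        simp
      rw [h2, h3, h4, mul_smul_comm, mul_sub, mul_one, ← ogw_mul, h1]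

/-- summation by parts -/
theorem SF_parts (l : List (K.V × Bool)) (h1 : ogw K (FreeGroup.mk l) = 1) :
    SF K F (FreeGroup.mk l) = ∑ k ∈ Finset.range l.length,
      (FV F l ((k + l.length - 1) % l.length) - FV F l k) • ogw K (FreeGroup.mk (l.take k)) := by
  rw [SF_list]
  simp only [smul_sub, sub_smul, Finset.sum_sub_distrib]
  congr 1
  rcases Nat.eq_zero_or_pos l.length with h0 | h0
  · rw [h0]
    simp
  · obtain ⟨m, hm⟩ : ∃ m, l.length = m + 1 := ⟨l.length - 1, by omega⟩
    rw [hm, Finset.sum_range_succ, Finset.sum_range_succ' (fun k =>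
      FV F l ((k + (m + 1) - 1) % (m + 1)) • ogw K (FreeGroup.mk (l.take k)))]
    congr 1
    · refine Finset.sum_congr rfl fun k hk => ?_
      have hk' := Finset.mem_range.1 hk
      have h2 : (k + 1 + (m + 1) - 1) % (m + 1) = k := by
        have h3 : k + 1 + (m + 1) - 1 = k + (m + 1) := by omega
        rw [h3, Nat.add_mod_right, Nat.mod_eq_of_lt (by omega)]
      rw [h2]
    · have h2 : (0 + (m + 1) - 1) % (m + 1) = m := by
        have h3 : 0 + (m + 1) - 1 = m := by omega
        rw [h3, Nat.mod_eq_of_lt (by omega)]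
      have h3 : l.take (m + 1) = l := by
        rw [List.take_of_length_le]
        omega
      have h4 : (FreeGroup.mk (l.take 0) : FreeGroup K.V) = 1 := rfl
      rw [h2, h3, h1, h4, ogw_one]

end fox

section word
variable (K : Cx)

lemma mk_word (j : K.R) : FreeGroup.mk (word K j) = K.r j := by
  letI := Classical.decEq K.V
  exact FreeGroup.mk_toWord

lemma ogw_rel (j : K.R) : ogw K (K.r j) = 1 := by
  unfold ogw
  have h1 : PresentedGroup.mk (Set.range K.r) (K.r j) = 1 := PresentedGroup.one_of_mem ⟨j, rfl⟩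
  rw [h1, map_one]

/-- evaluation of a function on a vector -/
noncomputable def ev {V : Type} (F : V → ℤ) : (V →₀ ℤ) →ₗ[ℤ] ℤ := Finsupp.linearCombination ℤ F

lemma ev_ltr (F : K.V → ℤ) (j : K.R) (k : ℕ) : ev F (ltr K j k) = FV F (word K j) k := by
  unfold ltr FV
  cases (word K j)[k]? with
  | none => simp
  | some x => simp [ev]

lemma ev_crn (F : K.V → ℤ) (j : K.R) (k : ℕ) : ev F (crn K j k) =
    FV F (word K j) ((k + (word K j).length - 1) % (word K j).length) - FV F (word K j) k := by
  unfold crn
  rw [map_sub, ev_ltr, ev_ltr]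

/-- the boundary of a 2-cell in terms of its corners -/
theorem SF_rel [Fintype K.V] (F : K.V → ℤ) (j : K.R) : SF K F (K.r j) =
    ∑ k ∈ Finset.range (word K j).length, ev F (crn K j k) • MonoidAlgebra.of ℤ K.Pi (pre K j k) := by
  have h1 := SF_parts K F (word K j) (by rw [mk_word]; exact ogw_rel K j)
  rw [mk_word] at h1
  rw [h1]
  refine Finset.sum_congr rfl fun k _ => ?_
  rw [ev_crn]
  rfl

end word

section sub
variable {K' K : Cx} (i : Sub K' K)

lemma word_map (j : K'.R) : word K (i.c j) = (word K' j).map (Prod.map i.v id) := by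
  classical
  have h1 : word K (i.c j) = (K.r (i.c j)).toWord := by
    unfold word
    congr
  have h2 : word K' j = (K'.r j).toWord := by
    unfold word
    congr
  rw [h1, h2, ← i.comm]
  have h3 : FreeGroup.map i.v (K'.r j) =
      FreeGroup.mk ((K'.r j).toWord.map (Prod.map i.v id)) := by
    conv_lhs => rw [← FreeGroup.mk_toWord (x := K'.r j)]
    rw [FreeGroup.map.mk]
    rfl
  rw [h3, FreeGroup.toWord_mk]
  have h4 : FreeGroup.IsReduced ((K'.r j).toWord.map (Prod.map i.v id)) := by
    have h5 : FreeGroup.IsReduced (K'.r j).toWord := FreeGroup.isReduced_toWord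
    unfold FreeGroup.IsReduced at h5 ⊢
    rw [List.isChain_map]
    refine List.IsChain.imp ?_ h5
    intro a b hab h
    simp only [Prod.map_fst, Prod.map_snd, id_eq] at h ⊢
    exact hab (i.v.injective h)
  exact FreeGroup.isReduced_iff_reduce_eq.1 h4

lemma len_map (j : K'.R) : (word K (i.c j)).length = (word K' j).length := by
  rw [word_map i, List.length_map]

lemma FV_map (F : K.V → ℤ) (j : K'.R) (k : ℕ) :
    FV (F ∘ i.v) (word K' j) k = FV F (word K (i.c j)) k := by
  unfold FV
  rw [word_map i, List.getElem?_map]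
  cases (word K' j)[k]? <;> rfl

lemma ev_crn_map (F : K.V → ℤ) (j : K'.R) (k : ℕ) :
    ev (F ∘ i.v) (crn K' j k) = ev F (crn K (i.c j) k) := by
  rw [ev_crn, ev_crn, FV_map, FV_map, len_map i]

lemma pre_map (j : K'.R) (k : ℕ) : i.map (pre K' j k) = pre K (i.c j) k := by
  unfold pre
  rw [word_map i, ← List.map_take]
  have h1 : ∀ w : FreeGroup K'.V, i.map (PresentedGroup.mk (Set.range K'.r) w) =
      PresentedGroup.mk (Set.range K.r) (FreeGroup.map i.v w) := by
    intro w
    have h2 : (i.map.comp (PresentedGroup.mk (Set.range K'.r))) =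
        (PresentedGroup.mk (Set.range K.r)).comp (FreeGroup.map i.v) := by
      ext v
      simp only [MonoidHom.comp_apply, FreeGroup.map.of]
      exact map_of i v
    exact DFunLike.congr_fun h2 w
  rw [h1, FreeGroup.map.mk]
  rfl

end sub

end Pool.Agent.Helper78K9.GO4
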