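import Pool.Agent.Helper78K9.GO3.Cycle2

set_option autoImplicit false

/-!
# Closed walks with real weights
-/

namespace Pool.Agent.Helper78K9.GO4

open Finset
open Pool.Agent.Helper78K9.GO3 (Cl One Inj cut_cl inj_mod exists_next exists_cyc)

section tools
variable {E : Type} {R : E → E → Prop} {w : E → ℝ}

/-- the partial sums -/
noncomputable def PR (w : E → ℝ) (c : ℕ → E) (k : ℕ) : ℝ := ∑ i ∈ range k, w (c i)

lemma PR_add {m : ℕ} {c : ℕ → E} (hp : ∀ i, c (i + m) = c i) (k : ℕ) :
    PR w c (k + m) = PR w c k + PR w c m := by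
  induction k with
  | zero => simp [PR]
  | succ k ih =>
    have h1 : k + 1 + m = (k + m) + 1 := by ring
    rw [h1]
    unfold PR at *
    rw [Finset.sum_range_succ, Finset.sum_range_succ, ih, hp]
    ring

lemma cut_pr (c : ℕ → E) (i l : ℕ) :
    PR w (fun k => c (i + k % l)) l = PR w c (i + l) - PR w c i := by
  unfold PR
  rw [Finset.sum_range_add]
  have h1 : ∑ k ∈ range l, w (c (i + k % l)) = ∑ k ∈ range l, w (c (i + k)) := by
    refine Finset.sum_congr rfl fun k hk => ?_
    rw [Nat.mod_eq_of_lt (Finset.mem_range.1 hk)]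
  rw [h1]
  ring

lemma sum_cyc {m : ℕ} {c : ℕ → E} (hc : Cl R m c) (hi : Inj m c) {S : Finset E}
    (hS : ∀ x, x ∈ S ↔ ∃ k, c k = x) : ∑ x ∈ S, w x = PR w c m := by
  classical
  have hmod : ∀ k, c (k % m) = c k := fun k => Function.Periodic.map_mod_nat (f := c) hc.2.2 k
  have h1 : S = (range m).image c := by
    ext x
    rw [hS]
    simp only [Finset.mem_image, Finset.mem_range]
    constructor
    · rintro ⟨k, h⟩
      exact ⟨k % m, Nat.mod_lt _ hc.1, by rw [hmod, h]⟩
    · rintro ⟨k, -, h⟩
      exact ⟨k, h⟩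
  rw [h1, Finset.sum_image]
  · rfl
  · intro i hi' j hj h
    have h1 := inj_mod hc hi h
    rw [Finset.mem_coe, Finset.mem_range] at hi' hj
    rwa [Nat.mod_eq_of_lt hi', Nat.mod_eq_of_lt hj] at h1

variable [Finite E]

/-- The comparison of another permutation with the cyclic one, by a potential. -/
theorem compare [DecidableEq E] {m : ℕ} {c : ℕ → E} (hc : Cl R m c) (hi : Inj m c) {S : Finset E}
    {σ τ : Equiv.Perm E} (hS : ∀ x, x ∈ S ↔ ∃ k, c k = x) (hσ : ∀ k, σ (c k) = c (k + 1))
    (hσ' : ∀ x, x ∉ S → σ x = x) (hτ : ∀ x, x ∉ S → τ x = x)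
    (hD : ∀ k r : ℕ, 0 < r → r < m → c (k + 1 + r) = τ (c k) →
      0 ≤ (m : ℝ) * (PR w c (k + 1) + PR w c m - PR w c (k + 1 + r)) -
        ((m : ℝ) - r) * PR w c m) :
    ∀ k r : ℕ, 0 < r → r < m → c (k + 1 + r) = τ (c k) →
      (m : ℝ) * (PR w c (k + 1) + PR w c m - PR w c (k + 1 + r)) -
        ((m : ℝ) - r) * PR w c m = 0 := by
  classical
  have := Fintype.ofFinite E
  have hp := hc.2.2
  let q : ℕ → ℝ := fun k => m * PR w c k - k * PR w c m
  have hq : ∀ k, q (k + m) = q k := by
    intro k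
    simp only [q]
    rw [PR_add hp]
    push_cast
    ring
  have hqm : ∀ k, q (k % m) = q k := fun k => Function.Periodic.map_mod_nat (f := q) hq k
  let p : E → ℝ := fun x => if h : ∃ k, c k = x then q h.choose else 0
  have hpc : ∀ k, p (c k) = q k := by
    intro k
    have h : ∃ k', c k' = c k := ⟨k, rfl⟩
    simp only [p]
    rw [dif_pos h, ← hqm, inj_mod hc hi h.choose_spec, hqm]
  have hdiff : ∀ k r : ℕ, c (k + 1 + r) = τ (c k) → p (σ (c k)) - p (τ (c k)) =
      (m : ℝ) * (PR w c (k + 1) + PR w c m - PR w c (k + 1 + r)) -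
        ((m : ℝ) - r) * PR w c m := by
    intro k r h
    rw [← h, hσ, hpc, hpc]
    simp only [q]
    push_cast
    ring
  have hkey : ∀ x, p (τ x) ≤ p (σ x) := by
    intro x
    by_cases hx : x ∈ S
    · have hx' : ∃ j, c j = τ x := by
        rw [← hS]
        by_contra h
        have h1 := hτ _ h
        have h2 := τ.injective h1
        rw [h2] at h
        exact h hx
      obtain ⟨k, rfl⟩ := (hS x).1 hx
      obtain ⟨j', hj'⟩ := hx'
      obtain ⟨r, hr, hrj⟩ := exists_next hc j' k
      rw [hj'] at hrj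
      rcases Nat.eq_zero_or_pos r with h0 | h0
      · rw [h0, add_zero, ← hσ] at hrj
        rw [hrj]
      · have h1 := hdiff k r hrj
        have h2 := hD k r h0 hr hrj
        linarith
    · rw [hτ x hx, hσ' x hx]
  have hsum : ∑ x, p (τ x) = ∑ x, p (σ x) := by
    rw [Equiv.sum_comp τ p, Equiv.sum_comp σ p]
  have hall := (Finset.sum_eq_sum_iff_of_le fun x _ => hkey x).1 hsum
  intro k r h0 hr hrj
  rw [← hdiff k r hrj, hall (c k) (Finset.mem_univ _), sub_self]

/-- A shortest closed walk of bad weight: `bad` is `≤ 0` or `< 0`. -/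
theorem exists_one [DecidableEq E] (bad : ℝ → Prop)
    (hadd : ∀ x y, ¬ bad x → ¬ bad y → ¬ bad (x + y))
    (hmul : ∀ (m r : ℕ) (D P : ℝ), 0 < r → r < m → ¬ bad D → bad P →
      0 < (m : ℝ) * D - ((m : ℝ) - r) * P) {m : ℕ} {c : ℕ → E}
    (hc : Cl R m c) (hw : bad (PR w c m)) :
    ∃ (S : Finset E) (σ : Equiv.Perm E) (c₁ : ℕ → E), One R S σ ∧ bad (∑ x ∈ S, w x) ∧
      Cl R S.card c₁ ∧ Inj S.card c₁ ∧ (∀ x, x ∈ S ↔ ∃ k, c₁ k = x) ∧
      (∀ k, σ (c₁ k) = c₁ (k + 1)) ∧
      ∀ (m' : ℕ) (c' : ℕ → E), Cl R m' c' → bad (PR w c' m') → S.card ≤ m' := by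
  classical
  have hex : ∃ m, ∃ c, Cl R m c ∧ bad (PR w c m) := ⟨m, c, hc, hw⟩
  obtain ⟨c₁, hc₁, hw₁⟩ := Nat.find_spec hex
  have hmin : ∀ l c', Cl R l c' → bad (PR w c' l) → Nat.find hex ≤ l :=
    fun l c' h1 h2 => Nat.find_min' hex ⟨c', h1, h2⟩
  set m₁ := Nat.find hex with hm
  clear_value m₁
  have hpos : ∀ i l, 0 < l → l < m₁ → R (c₁ (i + (l - 1))) (c₁ i) →
      ¬ bad (PR w c₁ (i + l) - PR w c₁ i) := by
    intro i l hl hlm hb h
    have h1 := hmin l _ (cut_cl hc₁ i l hl hb) (by rw [cut_pr]; exact h)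
    omega
  have hp := hc₁.2.2
  have hi : Inj m₁ c₁ := by
    intro i j hij hjm he
    have h1 := hpos i (j - i) (by omega) (by omega) (by
      have h2 := hc₁.2.1 (i + (j - i - 1))
      have h3 : i + (j - i - 1) + 1 = j := by omega
      rw [h3, ← he] at h2
      exact h2)
    have h2 := hpos j (i + m₁ - j) (by omega) (by omega) (by
      have h2 := hc₁.2.1 (j + (i + m₁ - j - 1))
      have h3 : j + (i + m₁ - j - 1) + 1 = i + m₁ := by omega
      rw [h3, hp, he] at h2
      exact h2)
    have h3 : i + (j - i) = j := by omega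
    have h4 : j + (i + m₁ - j) = i + m₁ := by omega
    rw [h3] at h1
    rw [h4, PR_add hp] at h2
    have h5 := hadd _ _ h1 h2
    apply h5
    have h6 : PR w c₁ j - PR w c₁ i + (PR w c₁ i + PR w c₁ m₁ - PR w c₁ j) = PR w c₁ m₁ := by ring
    rw [h6]
    exact hw₁
  obtain ⟨S, σ, hS, hσ, hσ', -, hScard⟩ := exists_cyc (w := fun _ => 0) hc₁ hi
  have hSw := sum_cyc (w := w) hc₁ hi hS
  refine ⟨S, σ, c₁, ⟨⟨c₁ 0, (hS _).2 ⟨0, rfl⟩⟩, hσ', ?_, ?_⟩, by rw [hSw]; exact hw₁,
    by rw [hScard]; exact hc₁, by rw [hScard]; exact hi, hS, hσ,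
    by rw [hScard]; exact hmin⟩
  · intro x hx
    obtain ⟨k, rfl⟩ := (hS x).1 hx
    rw [hσ]
    exact hc₁.2.1 k
  · intro τ hτ hτR
    have hbig : ∀ k r : ℕ, 0 < r → r < m₁ → c₁ (k + 1 + r) = τ (c₁ k) →
        0 < (m₁ : ℝ) * (PR w c₁ (k + 1) + PR w c₁ m₁ - PR w c₁ (k + 1 + r)) -
          ((m₁ : ℝ) - r) * PR w c₁ m₁ := by
      intro k r h0 hr hrj
      have h2 := hpos (k + 1 + r) (m₁ - r) (by omega) (by omega) (by
        have h3 : k + 1 + r + (m₁ - r - 1) = k + m₁ := by omega
        rw [h3, hp, hrj]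
        exact hτR _ ((hS _).2 ⟨k, rfl⟩))
      have h3 : k + 1 + r + (m₁ - r) = (k + 1) + m₁ := by omega
      rw [h3, PR_add hp] at h2
      exact hmul m₁ r _ _ h0 hr h2 hw₁
    have hz := compare hc₁ hi hS hσ hσ' hτ (fun k r h0 hr hrj => (hbig k r h0 hr hrj).le)
    ext1 x
    by_cases hx : x ∈ S
    · have hx' : ∃ j, c₁ j = τ x := by
        rw [← hS]
        by_contra h
        have h1 := hτ _ h
        have h2 := τ.injective h1
        rw [h2] at h
        exact h hx
      obtain ⟨k, rfl⟩ := (hS x).1 hx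
      obtain ⟨j', hj'⟩ := hx'
      obtain ⟨r, hr, hrj⟩ := exists_next hc₁ j' k
      rw [hj'] at hrj
      rcases Nat.eq_zero_or_pos r with h0 | h0
      · rw [h0, add_zero, ← hσ] at hrj
        exact hrj.symm
      · have h1 := hz k r h0 hr hrj
        have h2 := hbig k r h0 hr hrj
        linarith
    · rw [hτ x hx, hσ' x hx]

lemma bad_le (m r : ℕ) (D P : ℝ) (_ : 0 < r) (hr : r < m) (hD : ¬ D ≤ 0) (hP : P ≤ 0) :
    0 < (m : ℝ) * D - ((m : ℝ) - r) * P := by
  have h1 : (0 : ℝ) < m := by
    have : 0 < m := by omega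
    exact_mod_cast this
  have h2 : (r : ℝ) < m := by exact_mod_cast hr
  have h3 : 0 < (m : ℝ) * D := mul_pos h1 (not_le.1 hD)
  have h4 : ((m : ℝ) - r) * P ≤ 0 := mul_nonpos_of_nonneg_of_nonpos (by linarith) hP
  linarith

lemma bad_lt (m r : ℕ) (D P : ℝ) (_ : 0 < r) (hr : r < m) (hD : ¬ D < 0) (hP : P < 0) :
    0 < (m : ℝ) * D - ((m : ℝ) - r) * P := by
  have h2 : (r : ℝ) < m := by exact_mod_cast hr
  have h3 : 0 ≤ (m : ℝ) * D := mul_nonneg (by exact_mod_cast Nat.zero_le m) (not_lt.1 hD)
  have h4 : ((m : ℝ) - r) * P < 0 := mul_neg_of_pos_of_neg (by linarith) hP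
  linarith

/-- a closed walk of weight at most `0` -/
theorem exists_le [DecidableEq E] {m : ℕ} {c : ℕ → E} (hc : Cl R m c) (hw : PR w c m ≤ 0) :
    ∃ (S : Finset E) (σ : Equiv.Perm E) (c₁ : ℕ → E), One R S σ ∧ ∑ x ∈ S, w x ≤ 0 ∧
      Cl R S.card c₁ ∧ Inj S.card c₁ ∧ (∀ x, x ∈ S ↔ ∃ k, c₁ k = x) ∧
      (∀ k, σ (c₁ k) = c₁ (k + 1)) ∧
      ∀ (m' : ℕ) (c' : ℕ → E), Cl R m' c' → PR w c' m' ≤ 0 → S.card ≤ m' :=
  exists_one (fun x => x ≤ 0) (fun x y hx hy => by
    simp only [not_le] at *
    exact add_pos hx hy) bad_le hc hw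

/-- a closed walk of negative weight -/
theorem exists_lt [DecidableEq E] {m : ℕ} {c : ℕ → E} (hc : Cl R m c) (hw : PR w c m < 0) :
    ∃ (S : Finset E) (σ : Equiv.Perm E), One R S σ ∧ ∑ x ∈ S, w x < 0 := by
  obtain ⟨S, σ, -, h1, h2, -⟩ := exists_one (fun x => x < 0) (fun x y hx hy => by
    simp only [not_lt] at *
    exact add_nonneg hx hy) bad_lt hc hw
  exact ⟨S, σ, h1, h2⟩

/-- If there are no closed walks of negative weight and only one set of weight zero with exactly one
permutation, then all closed walks of weight zero follow this permutation. -/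
theorem zero_walk [DecidableEq E] (hneg : ∀ (m : ℕ) (c : ℕ → E), Cl R m c → 0 ≤ PR w c m)
    {S₀ : Finset E} {π : Equiv.Perm E} (hone : One R S₀ π)
    (hcard : ∀ (m : ℕ) (c : ℕ → E), Cl R m c → PR w c m ≤ 0 → S₀.card ≤ m)
    (huniq : ∀ (S : Finset E) (σ : Equiv.Perm E), One R S σ → ∑ x ∈ S, w x ≤ 0 → S = S₀) :
    ∀ (m : ℕ) (c : ℕ → E), Cl R m c → PR w c m ≤ 0 → ∀ k, c k ∈ S₀ ∧ c (k + 1) = π (c k) := by
  classical
  intro m
  induction m using Nat.strong_induction_on with
  | _ m ih =>
  intro c hc hw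
  have hp := hc.2.2
  have hw0 : PR w c m = 0 := le_antisymm hw (hneg m c hc)
  have hmod : ∀ k, c (k % m) = c k := fun k => Function.Periodic.map_mod_nat (f := c) hp k
  have hmR : (m : ℝ) ≠ 0 := by
    have := hc.1
    exact_mod_cast this.ne'
  by_cases hi : Inj m c
  · -- the walk is injective
    obtain ⟨S, σ, hS, hσ, hσ', -, hScard⟩ := exists_cyc (w := fun _ => 0) hc hi
    have hSw := sum_cyc (w := w) hc hi hS
    have hσR : ∀ x ∈ S, R x (σ x) := by
      intro x hx
      obtain ⟨k, rfl⟩ := (hS x).1 hx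
      rw [hσ]
      exact hc.2.1 k
    have hone' : One R S σ := by
      refine ⟨⟨c 0, (hS _).2 ⟨0, rfl⟩⟩, hσ', hσR, ?_⟩
      intro τ hτ hτR
      -- the closed walk of a step along `τ`
      have hcl : ∀ k r, 0 < r → r < m → c (k + 1 + r) = τ (c k) →
          Cl R (m - r) (fun i => c (k + 1 + r + i % (m - r))) := by
        intro k r h0 hr hrj
        refine cut_cl hc (k + 1 + r) (m - r) (by omega) ?_
        have h3 : k + 1 + r + (m - r - 1) = k + m := by omega
        rw [h3, hp, hrj]
        exact hτR _ ((hS _).2 ⟨k, rfl⟩)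
      have hcw : ∀ k r, 0 < r → r < m →
          PR w (fun i => c (k + 1 + r + i % (m - r))) (m - r) =
            PR w c (k + 1) + PR w c m - PR w c (k + 1 + r) := by
        intro k r h0 hr
        rw [cut_pr]
        have h3 : k + 1 + r + (m - r) = (k + 1) + m := by omega
        rw [h3, PR_add hp]
      have hz := compare (w := w) hc hi hS hσ hσ' hτ (by
        intro k r h0 hr hrj
        have h1 := hneg _ _ (hcl k r h0 hr hrj)
        rw [hcw k r h0 hr] at h1
        rw [hw0] at h1 ⊢
        rw [mul_zero, sub_zero]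
        exact mul_nonneg (by exact_mod_cast Nat.zero_le m) h1)
      -- the weights of these walks are zero
      have hw00 : ∀ k r, 0 < r → r < m → c (k + 1 + r) = τ (c k) →
          PR w (fun i => c (k + 1 + r + i % (m - r))) (m - r) ≤ 0 := by
        intro k r h0 hr hrj
        have h1 := hz k r h0 hr hrj
        rw [hcw k r h0 hr]
        rw [hw0] at h1 ⊢
        rw [mul_zero, sub_zero] at h1
        exact le_of_eq ((mul_eq_zero.1 h1).resolve_left hmR)
      -- these walks follow `π`
      have hfol : ∀ k r, 0 < r → r < m → c (k + 1 + r) = τ (c k) →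
          (∀ i, c (k + 1 + r + i % (m - r)) ∈ S₀ ∧
            c (k + 1 + r + (i + 1) % (m - r)) = π (c (k + 1 + r + i % (m - r)))) := by
        intro k r h0 hr hrj
        exact ih (m - r) (by omega) _ (hcl k r h0 hr hrj) (hw00 k r h0 hr hrj)
      by_contra hne
      -- two points where the permutations differ
      obtain ⟨x, hx⟩ : ∃ x, τ x ≠ σ x := by
        by_contra h
        push Not at h
        exact hne (Equiv.ext h)
      obtain ⟨x', hx', hxx⟩ : ∃ x', τ x' ≠ σ x' ∧ x' ≠ x := by
        refine ⟨τ.symm (σ x), ?_, ?_⟩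
        · rw [Equiv.apply_symm_apply]
          intro h
          have h1 := σ.injective h
          apply hx
          conv_lhs => rw [h1]
          rw [Equiv.apply_symm_apply]
        · intro h
          apply hx
          conv_lhs => rw [← h]
          rw [Equiv.apply_symm_apply]
      have hdat : ∀ x, τ x ≠ σ x → ∃ k r, c k = x ∧ 0 < r ∧ r < m ∧ c (k + 1 + r) = τ (c k) := by
        intro x hx
        have hxS : x ∈ S := by
          by_contra h
          apply hx
          rw [hτ x h, hσ' x h]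
        have hx' : ∃ j, c j = τ x := by
          rw [← hS]
          by_contra h
          have h1 := hτ _ h
          have h2 := τ.injective h1
          rw [h2] at h
          exact h hxS
        obtain ⟨k, rfl⟩ := (hS x).1 hxS
        obtain ⟨j', hj'⟩ := hx'
        obtain ⟨r, hr, hrj⟩ := exists_next hc j' k
        rw [hj'] at hrj
        refine ⟨k, r, rfl, ?_, hr, hrj⟩
        rcases Nat.eq_zero_or_pos r with h0 | h0
        · rw [h0, add_zero, ← hσ] at hrj
          exact absurd hrj.symm hx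
        · exact h0
      -- `π` at such a point, and the whole set `S₀`
      have hπ : ∀ x, τ x ≠ σ x → π x = τ x ∧ x ∈ S₀ ∧ ∀ u ∈ S₀, u ≠ x → π u = σ u := by
        intro x hx
        obtain ⟨k, r, rfl, h0, hr, hrj⟩ := hdat x hx
        have hf := hfol k r h0 hr hrj
        have hlast : c (k + 1 + r + (m - r - 1)) = c k := by
          have h3 : k + 1 + r + (m - r - 1) = k + m := by omega
          rw [h3, hp]
        have h1 := hf (m - r - 1)
        rw [Nat.mod_eq_of_lt (by omega), hlast] at h1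
        have h2 : (m - r - 1 + 1) % (m - r) = 0 := by
          have h3 : m - r - 1 + 1 = m - r := by omega
          rw [h3, Nat.mod_self]
        rw [h2, add_zero, hrj] at h1
        refine ⟨h1.2.symm, h1.1, ?_⟩
        -- the walk exhausts `S₀`
        have hle := hcard _ _ (hcl k r h0 hr hrj) (hw00 k r h0 hr hrj)
        have hsub : (range (m - r)).image (fun i => c (k + 1 + r + i)) ⊆ S₀ := by
          intro u hu
          obtain ⟨i, hi', rfl⟩ := Finset.mem_image.1 hu
          have h3 := (hf i).1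
          rwa [Nat.mod_eq_of_lt (Finset.mem_range.1 hi')] at h3
        have hcd : ((range (m - r)).image (fun i => c (k + 1 + r + i))).card = m - r := by
          rw [Finset.card_image_of_injOn, Finset.card_range]
          intro i hi' j hj h
          rw [Finset.mem_coe, Finset.mem_range] at hi' hj
          simp only at h
          rcases lt_trichotomy i j with h3 | h3 | h3
          · exact absurd h (hi _ _ (by omega) (by omega))
          · exact h3
          · exact absurd h.symm (hi _ _ (by omega) (by omega))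
        have heq := Finset.eq_of_subset_of_card_le hsub (by rw [hcd]; exact hle)
        intro u hu hux
        rw [← heq] at hu
        obtain ⟨i, hi', rfl⟩ := Finset.mem_image.1 hu
        have hi'' := Finset.mem_range.1 hi'
        have h3 : i ≠ m - r - 1 := by
          rintro rfl
          exact hux hlast
        have h4 := (hf i).2
        rw [Nat.mod_eq_of_lt hi'', Nat.mod_eq_of_lt (by omega)] at h4
        rw [← h4, hσ]
        rfl
      obtain ⟨p1, p2, p3⟩ := hπ x hx
      obtain ⟨p1', p2', p3'⟩ := hπ x' hx'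
      have h1 := p3 x' p2' hxx
      rw [p1'] at h1
      exact hx' h1
    have hSS := huniq S σ hone' (by rw [hSw, hw0])
    subst hSS
    have h1 := hone.2.2.2 σ hσ' hσR
    intro k
    refine ⟨(hS _).2 ⟨k, rfl⟩, ?_⟩
    rw [← h1, hσ]
  · -- the walk is not injective
    unfold Inj at hi
    push Not at hi
    obtain ⟨i, j, hij, hjm, he⟩ := hi
    have hb1 : R (c (i + (j - i - 1))) (c i) := by
      have h2 := hc.2.1 (i + (j - i - 1))
      have h3 : i + (j - i - 1) + 1 = j := by omega
      rw [h3, ← he] at h2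
      exact h2
    have hb2 : R (c (j + (i + m - j - 1))) (c j) := by
      have h2 := hc.2.1 (j + (i + m - j - 1))
      have h3 : j + (i + m - j - 1) + 1 = i + m := by omega
      rw [h3, hp, he] at h2
      exact h2
    have hc1 := cut_cl hc i (j - i) (by omega) hb1
    have hc2 := cut_cl hc j (i + m - j) (by omega) hb2
    have hw1 := hneg _ _ hc1
    have hw2 := hneg _ _ hc2
    rw [cut_pr] at hw1 hw2
    have h3 : i + (j - i) = j := by omega
    have h4 : j + (i + m - j) = i + m := by omega
    rw [h3] at hw1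
    rw [h4, PR_add hp] at hw2
    have f1 := ih (j - i) (by omega) _ hc1 (by rw [cut_pr, h3]; linarith)
    have f2 := ih (i + m - j) (by omega) _ hc2 (by rw [cut_pr, h4, PR_add hp]; linarith)
    have hall : ∀ k, i ≤ k → k < i + m → c k ∈ S₀ ∧ c (k + 1) = π (c k) := by
      intro k hik hkm
      by_cases hkj : k < j
      · have g := f1 (k - i)
        rw [Nat.mod_eq_of_lt (by omega)] at g
        have h5 : i + (k - i) = k := by omega
        rw [h5] at g
        refine ⟨g.1, ?_⟩
        by_cases hl : k + 1 = j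
        · have h6 : (k - i + 1) % (j - i) = 0 := by
            have h7 : k - i + 1 = j - i := by omega
            rw [h7, Nat.mod_self]
          rw [h6, add_zero] at g
          rw [hl, ← he]
          exact g.2
        · rw [Nat.mod_eq_of_lt (by omega)] at g
          have h6 : i + (k - i + 1) = k + 1 := by omega
          rw [h6] at g
          exact g.2
      · have g := f2 (k - j)
        rw [Nat.mod_eq_of_lt (by omega)] at g
        have h5 : j + (k - j) = k := by omega
        rw [h5] at g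
        refine ⟨g.1, ?_⟩
        by_cases hl : k + 1 = i + m
        · have h6 : (k - j + 1) % (i + m - j) = 0 := by
            have h7 : k - j + 1 = i + m - j := by omega
            rw [h7, Nat.mod_self]
          rw [h6, add_zero] at g
          rw [hl, hp, he]
          exact g.2
        · rw [Nat.mod_eq_of_lt (by omega)] at g
          have h6 : j + (k - j + 1) = k + 1 := by omega
          rw [h6] at g
          exact g.2
    intro k
    obtain ⟨r, hr, hrk⟩ : ∃ r, r < m ∧ (i + r) % m = k % m := by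
      refine ⟨(k + (m - 1) * i) % m, Nat.mod_lt _ hc.1, ?_⟩
      rw [Nat.add_mod_mod]
      have h1 : i + (k + (m - 1) * i) = k + m * i := by
        obtain ⟨m', rfl⟩ : ∃ m', m = m' + 1 := ⟨m - 1, by have := hc.1; omega⟩
        simp only [Nat.add_sub_cancel]
        ring
      rw [h1, Nat.add_mul_mod_self_left]
    have h5 := hall (i + r) (by omega) (by omega)
    have h6 : c (i + r) = c k := by rw [← hmod (i + r), hrk, hmod]
    have h7 : c (i + r + 1) = c (k + 1) := by
      rw [← hmod (i + r + 1), ← hmod (k + 1), Nat.add_mod, hrk, ← Nat.add_mod]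
    rw [h6, h7] at h5
    exact h5

end tools

end Pool.Agent.Helper78K9.GO4
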