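import Pool.Agent.R655.LI.Asph

set_option autoImplicit false

/-!
# Corners of the 2-cells

Definitions: the corners of the 2-cells of a 2-complex with one vertex, the graph of a choice of one
corner in each 2-cell, and its total height.
-/

namespace Pool.Agent.Helper78K9.GO4

open Pool.Agent.R655.LI

/-- The reduced word of the attaching map of the 2-cell `j`. -/
noncomputable def word (K : Cx) (j : K.R) : List (K.V × Bool) :=
  letI := Classical.decEq K.V
  (K.r j).toWord

/-- The generator of the `k`-th letter (counted from `0`, without the exponent), as a unit vector. -/
noncomputable def ltr (K : Cx) (j : K.R) (k : ℕ) : K.V →₀ ℤ :=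
  match (word K j)[k]? with
  | some x => Finsupp.single x.1 1
  | none => 0

/-- The corner `k` of the 2-cell `j` lies between the letters `k - 1` and `k` (cyclically); it is an edge
between the generators of these two letters, and given by the difference of the unit vectors. -/
noncomputable def crn (K : Cx) (j : K.R) (k : ℕ) : K.V →₀ ℤ :=
  ltr K j ((k + (word K j).length - 1) % (word K j).length) - ltr K j k

/-- The element of the fundamental group at the corner `k`: the product of the letters before it. -/
noncomputable def pre (K : Cx) (j : K.R) (k : ℕ) : K.Pi :=
  PresentedGroup.mk (Set.range K.r) (FreeGroup.mk ((word K j).take k))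

/-- A choice of one corner in each 2-cell whose edges form a forest (their vectors are linearly
independent). -/
def IsForest (K : Cx) (τ : K.R → ℕ) : Prop :=
  (∀ j, τ j < (word K j).length) ∧ LinearIndependent ℤ fun j => crn K j (τ j)

/-- The total height of the corners. -/
noncomputable def total (K : Cx) [Fintype K.R] (h : K.Pi →* Multiplicative ℝ) (τ : K.R → ℕ) : ℝ :=
  ∑ j, (h (pre K j (τ j))).toAdd

/-- All subcomplexes of `K` are aspherical. -/
def AllAsph (K : Cx) : Prop := ∀ (K' : Cx) (_ : Sub K' K), Asph K'

end Pool.Agent.Helper78K9.GO4
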