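import Pool.Agent.Helper78K9.GO4.Core
import Pool.Agent.Helper78K9.GO4.Corner

set_option autoImplicit false

/-!
# Exchanges of corners
-/

namespace Pool.Agent.Helper78K9.GO4

open Function
open Pool.Agent.R655.LI
open Pool.Agent.Helper78K9.GO3 (Cl One wd)

section dual
variable {V R : Type}

lemma ev_eq [Fintype V] (F : V → ℤ) (x : V →₀ ℤ) : ev F x = ∑ v, x v * F v := by
  unfold ev
  rw [Finsupp.linearCombination_apply, Finsupp.sum_fintype]
  · rfl
  · intro v
    exact zero_smul ℤ _

theorem exists_dual [Finite V] [Fintype R] [DecidableEq R] (u : R → V →₀ ℤ)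
    (hu : LinearIndependent ℤ u) :
    ∃ (D : ℤ) (F : R → V → ℤ), D ≠ 0 ∧ ∀ e f, ev (F f) (u e) = if e = f then D else 0 := by
  classical
  have := Fintype.ofFinite V
  let U : Matrix R V ℤ := Matrix.of fun e v => u e v
  let Γ : Matrix R R ℤ := U * U.transpose
  have hdet : Γ.det ≠ 0 := by
    intro h0
    obtain ⟨x, hx, hx0⟩ := Matrix.exists_vecMul_eq_zero_iff.2 h0
    apply hx
    have h1 : ∑ v, (Matrix.vecMul x U v) ^ 2 = 0 := by
      have h2 : Matrix.vecMul x Γ ⬝ᵥ x = 0 := by
        rw [hx0, zero_dotProduct]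
      have h3 : Matrix.vecMul x Γ = Matrix.vecMul (Matrix.vecMul x U) U.transpose := by
        rw [Matrix.vecMul_vecMul]
      rw [h3, Matrix.vecMul_transpose, dotProduct_comm, Matrix.dotProduct_mulVec] at h2
      rw [← h2]
      simp only [dotProduct]
      refine Finset.sum_congr rfl fun v _ => ?_
      rw [sq]
    have h2 : ∀ v, Matrix.vecMul x U v = 0 := by
      intro v
      have h3 := (Finset.sum_eq_zero_iff_of_nonneg fun v _ => sq_nonneg _).1 h1 v
        (Finset.mem_univ v)
      exact pow_eq_zero_iff (two_ne_zero) |>.1 h3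
    have h3 : ∑ e, x e • u e = 0 := by
      ext v
      rw [Finsupp.finsetSum_apply]
      have h4 := h2 v
      simp only [Matrix.vecMul, dotProduct, U, Matrix.of_apply] at h4
      exact h4
    funext e
    exact (Fintype.linearIndependent_iff.1 hu) x h3 e
  refine ⟨Γ.det, fun f v => (Γ.adjugate * U) f v, hdet, ?_⟩
  intro e f
  rw [ev_eq]
  have h1 : ∑ v, u e v * (Γ.adjugate * U) f v = (Γ.adjugate * U * U.transpose) f e := by
    rw [Matrix.mul_apply]
    refine Finset.sum_congr rfl fun v _ => ?_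
    rw [Matrix.transpose_apply, mul_comm]
    rfl
  rw [h1, Matrix.mul_assoc]
  change (Γ.adjugate * Γ) f e = _
  rw [Matrix.adjugate_mul, Matrix.smul_apply, Matrix.one_apply]
  by_cases h : e = f
  · rw [if_pos h, if_pos h.symm, smul_eq_mul, mul_one]
  · rw [if_neg h, if_neg (Ne.symm h), smul_zero]

end dual

section nodes
variable (K : Cx) (τ : K.R → ℕ)

/-- the corners which are not chosen -/
def Nd : Type := {p : K.R × ℕ // p.2 < (word K p.1).length ∧ p.2 ≠ τ p.1}

instance [Finite K.R] : Finite (Nd K τ) := by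
  let φ : Nd K τ → Σ j : K.R, Fin (word K j).length := fun p => ⟨p.1.1, ⟨p.1.2, p.2.1⟩⟩
  refine Finite.of_injective φ ?_
  rintro ⟨⟨j, k⟩, h1, h2⟩ ⟨⟨j', k'⟩, h1', h2'⟩ h
  simp only [φ, Sigma.mk.injEq] at h
  obtain ⟨rfl, h3⟩ := h
  simp only [heq_eq_eq, Fin.mk.injEq] at h3
  subst h3
  rfl

variable (F : K.R → K.V → ℤ)

/-- the relation of the exchanges of corners -/
def RN (p q : Nd K τ) : Prop := ev (F p.1.1) (crn K q.1.1 q.1.2) ≠ 0

/-- the difference of the heights -/
noncomputable def WK (h : K.Pi →* Multiplicative ℝ) (p : Nd K τ) : ℝ :=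
  (h (pre K p.1.1 p.1.2)).toAdd - (h (pre K p.1.1 (τ p.1.1))).toAdd

open Classical in
/-- the choice of the corners after an exchange -/
noncomputable def sw (S : Finset (Nd K τ)) (j : K.R) : ℕ :=
  if h : ∃ p ∈ S, p.1.1 = j then h.choose.1.2 else τ j

variable {K τ F}

lemma one_inj [Finite K.R] {S : Finset (Nd K τ)} {π : Equiv.Perm (Nd K τ)}
    (h : One (RN K τ F) S π) {p q : Nd K τ} (hp : p ∈ S) (hq : q ∈ S) (hpq : p.1.1 = q.1.1) :
    p = q := by
  classical
  obtain ⟨h1, h2, h3, h4⟩ := h
  have h5 : π * Equiv.swap p q = π := by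
    refine h4 _ ?_ ?_
    · intro x hx
      have hxp : x ≠ p := by
        rintro rfl
        exact hx hp
      have hxq : x ≠ q := by
        rintro rfl
        exact hx hq
      rw [Equiv.Perm.mul_apply, Equiv.swap_apply_of_ne_of_ne hxp hxq, h2 x hx]
    · intro x hx
      rw [Equiv.Perm.mul_apply]
      by_cases hxp : x = p
      · subst hxp
        rw [Equiv.swap_apply_left]
        have h6 := h3 q hq
        unfold RN at h6 ⊢
        rw [hpq]
        exact h6
      · by_cases hxq : x = q
        · subst hxq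
          rw [Equiv.swap_apply_right]
          have h6 := h3 p hp
          unfold RN at h6 ⊢
          rw [← hpq]
          exact h6
        · rw [Equiv.swap_apply_of_ne_of_ne hxp hxq]
          exact h3 x hx
  have h6 : Equiv.swap p q = 1 := by
    have h7 : π * Equiv.swap p q = π * 1 := by rw [h5, mul_one]
    exact mul_left_cancel h7
  by_contra hne
  have h7 := congrArg (fun f : Equiv.Perm (Nd K τ) => f p) h6
  simp only [Equiv.swap_apply_left, Equiv.Perm.coe_one, id_eq] at h7
  exact hne h7.symm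

lemma sw_mem {S : Finset (Nd K τ)} (hinj : ∀ p ∈ S, ∀ q ∈ S, p.1.1 = q.1.1 → p = q) {p : Nd K τ}
    (hp : p ∈ S) : sw K τ S p.1.1 = p.1.2 := by
  have h : ∃ q ∈ S, q.1.1 = p.1.1 := ⟨p, hp, rfl⟩
  unfold sw
  rw [dif_pos h]
  have h1 := hinj _ h.choose_spec.1 p hp h.choose_spec.2
  rw [h1]

lemma sw_notin {S : Finset (Nd K τ)} {j : K.R} (h : ¬ ∃ p ∈ S, p.1.1 = j) :
    sw K τ S j = τ j := by
  unfold sw
  rw [dif_neg h]

lemma sw_ne {S : Finset (Nd K τ)} (hS : S.Nonempty)
    (hinj : ∀ p ∈ S, ∀ q ∈ S, p.1.1 = q.1.1 → p = q) : sw K τ S ≠ τ := by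
  obtain ⟨p, hp⟩ := hS
  intro h
  have h1 := congrFun h p.1.1
  rw [sw_mem hinj hp] at h1
  exact p.2.2 h1

lemma total_sw [Fintype K.R] (h : K.Pi →* Multiplicative ℝ) {S : Finset (Nd K τ)}
    (hinj : ∀ p ∈ S, ∀ q ∈ S, p.1.1 = q.1.1 → p = q) :
    total K h (sw K τ S) = total K h τ + ∑ p ∈ S, WK K τ h p := by
  classical
  unfold total
  rw [← sub_eq_iff_eq_add', ← Finset.sum_sub_distrib]
  have h1 : ∑ j, ((h (pre K j (sw K τ S j))).toAdd - (h (pre K j (τ j))).toAdd) =
      ∑ j ∈ S.image (fun p => p.1.1),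
        ((h (pre K j (sw K τ S j))).toAdd - (h (pre K j (τ j))).toAdd) := by
    symm
    refine Finset.sum_subset (Finset.subset_univ _) ?_
    intro j _ hj
    rw [sw_notin, sub_self]
    rintro ⟨p, hp, rfl⟩
    exact hj (Finset.mem_image.2 ⟨p, hp, rfl⟩)
  rw [h1, Finset.sum_image (fun p hp q hq hpq => hinj p hp q hq hpq)]
  refine Finset.sum_congr rfl fun p hp => ?_
  rw [sw_mem hinj hp]
  rfl

/-- After an exchange of a set with exactly one permutation there is still a forest. -/
theorem forest_sw [Fintype K.R] [DecidableEq K.R] {D : ℤ} (hD : D ≠ 0)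
    (hF : ∀ e f, ev (F f) (crn K e (τ e)) = if e = f then D else 0)
    (hτ : ∀ j, τ j < (word K j).length) {S : Finset (Nd K τ)} {π : Equiv.Perm (Nd K τ)}
    (hone : One (RN K τ F) S π) : IsForest K (sw K τ S) := by
  classical
  have := Fintype.ofFinite (Nd K τ)
  have hinj : ∀ p ∈ S, ∀ q ∈ S, p.1.1 = q.1.1 → p = q :=
    fun p hp q hq hpq => one_inj hone hp hq hpq
  refine ⟨fun j => ?_, ?_⟩
  · by_cases h : ∃ p ∈ S, p.1.1 = j
    · obtain ⟨p, hp, rfl⟩ := h
      rw [sw_mem hinj hp]
      exact p.2.1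
    · rw [sw_notin h]
      exact hτ j
  rw [Fintype.linearIndependent_iff]
  intro x hx
  -- the equations
  have heq : ∀ f, ∑ e, x e * ev (F f) (crn K e (sw K τ S e)) = 0 := by
    intro f
    have h1 := congrArg (ev (F f)) hx
    rw [map_sum, map_zero] at h1
    rw [← h1]
    refine Finset.sum_congr rfl fun e _ => ?_
    rw [map_smul, smul_eq_mul]
  let rows : Finset K.R := S.image fun p => p.1.1
  have hrows : ∀ e, e ∉ rows → sw K τ S e = τ e := by
    intro e he
    refine sw_notin ?_
    rintro ⟨p, hp, rfl⟩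
    exact he (Finset.mem_image.2 ⟨p, hp, rfl⟩)
  have hsplit : ∀ f, ∑ e, x e * ev (F f) (crn K e (sw K τ S e)) =
      ∑ p ∈ S, x p.1.1 * ev (F f) (crn K p.1.1 p.1.2) + (if f ∈ rows then 0 else x f * D) := by
    intro f
    rw [← Finset.sum_add_sum_compl rows]
    congr 1
    · rw [Finset.sum_image (fun p hp q hq hpq => hinj p hp q hq hpq)]
      refine Finset.sum_congr rfl fun p hp => ?_
      rw [sw_mem hinj hp]
    · have h1 : ∀ e ∈ rowsᶜ, x e * ev (F f) (crn K e (sw K τ S e)) =
          if e = f then x f * D else 0 := by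
        intro e he
        rw [hrows e (Finset.mem_compl.1 he), hF]
        by_cases h : e = f
        · rw [if_pos h, if_pos h, h]
        · rw [if_neg h, if_neg h, mul_zero]
      rw [Finset.sum_congr rfl h1, Finset.sum_ite_eq']
      by_cases h : f ∈ rows
      · rw [if_pos h, if_neg (fun h' => (Finset.mem_compl.1 h') h)]
      · rw [if_neg h, if_pos (Finset.mem_compl.2 h)]
  -- the matrix of the exchange
  let B : Matrix (Nd K τ) (Nd K τ) ℤ := Matrix.of fun p q =>
    if p ∈ S then (if q ∈ S then ev (F q.1.1) (crn K p.1.1 p.1.2) else 0) else if p = q then 1 else 0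
  have hB1 : ∀ p q, p ∈ S → q ∈ S → B p q = ev (F q.1.1) (crn K p.1.1 p.1.2) := by
    intro p q hp hq
    simp only [B, Matrix.of_apply, if_pos hp, if_pos hq]
  have hB2 : ∀ p q, p ∈ S → q ∉ S → B p q = 0 := by
    intro p q hp hq
    simp only [B, Matrix.of_apply, if_pos hp, if_neg hq]
  have hB3 : ∀ p q, p ∉ S → B p q = if p = q then 1 else 0 := by
    intro p q hp
    simp only [B, Matrix.of_apply, if_neg hp]
  obtain ⟨-, o2, o3, o4⟩ := id hone
  have hdet : B.det ≠ 0 := by
    rw [Matrix.det_apply', Finset.sum_eq_single π]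
    · refine mul_ne_zero ?_ (Finset.prod_ne_zero_iff.2 fun p _ => ?_)
      · rcases Int.units_eq_one_or (Equiv.Perm.sign π) with h | h <;> rw [h] <;> norm_num
      · by_cases hp : p ∈ S
        · have h4 : π p ∈ S := by
            by_contra h5
            have h6 := o2 _ h5
            have h7 := π.injective h6
            rw [h7] at h5
            exact h5 hp
          rw [hB1 _ _ h4 hp]
          exact o3 p hp
        · rw [o2 p hp, hB3 _ _ hp, if_pos rfl]
          exact one_ne_zero
    · intro τ' _ hτ'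
      by_contra hne
      apply hτ'
      have h4 : ∀ p, B (τ' p) p ≠ 0 := by
        intro p h0
        apply hne
        have h5 : ∏ i, B (τ' i) i = 0 :=
          Finset.prod_eq_zero (f := fun p => B (τ' p) p) (Finset.mem_univ p) h0
        rw [h5, mul_zero]
      have h5 : ∀ p, τ' p ∉ S → τ' p = p := by
        intro p hp
        have h6 := h4 p
        rw [hB3 _ _ hp] at h6
        by_contra h7
        rw [if_neg h7] at h6
        exact h6 rfl
      have h6 : ∀ p, p ∉ S → τ' p = p := by
        intro p hp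
        refine h5 p ?_
        intro h7
        exact h4 p (hB2 _ _ h7 hp)
      refine o4 τ' h6 ?_
      intro p hp
      have h7 : τ' p ∈ S := by
        by_contra h8
        rw [h5 p h8] at h8
        exact h8 hp
      have h8 := h4 p
      rwa [hB1 _ _ h7 hp] at h8
    · intro h
      exact absurd (Finset.mem_univ _) h
  have hX : Matrix.vecMul (fun p => if p ∈ S then x p.1.1 else 0) B = 0 := by
    funext q
    simp only [Matrix.vecMul, dotProduct, Pi.zero_apply, ite_mul, zero_mul]
    rw [Finset.sum_ite_mem, Finset.univ_inter]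
    by_cases hq : q ∈ S
    · have h1 := heq q.1.1
      rw [hsplit, if_pos (Finset.mem_image.2 ⟨q, hq, rfl⟩), add_zero] at h1
      rw [← h1]
      refine Finset.sum_congr rfl fun p hp => ?_
      rw [hB1 p q hp hq]
    · refine Finset.sum_eq_zero fun p hp => ?_
      rw [hB2 p q hp hq, mul_zero]
  have hX0 := Matrix.eq_zero_of_vecMul_eq_zero hdet hX
  have hxS : ∀ p ∈ S, x p.1.1 = 0 := by
    intro p hp
    have h1 := congrFun hX0 p
    simpa only [if_pos hp, Pi.zero_apply] using h1
  intro f
  by_cases hf : f ∈ rows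
  · obtain ⟨p, hp, rfl⟩ := Finset.mem_image.1 hf
    exact hxS p hp
  · have h1 := heq f
    rw [hsplit, if_neg hf, Finset.sum_eq_zero, zero_add] at h1
    · exact (mul_eq_zero.1 h1).resolve_right hD
    · intro p hp
      rw [hxS p hp, zero_mul]

end nodes

end Pool.Agent.Helper78K9.GO4
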