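import Pool.Agent.Helper78K9.GO4.Exch

set_option autoImplicit false

/-!
# Asphericity by corner forests of minimal height
-/

namespace Pool.Agent.Helper78K9.GO4

open Function
open Pool.Agent.R655.LI
open Pool.Agent.Helper78K9.GO3 (Cl One wd)

section prod
variable {G : Type} [Group G] {J : Type}

lemma wd_prod (y b : J → G) (c : ℕ → J) (m : ℕ) :
    wd y b c m = y (c 0) * ((List.range m).map fun k => (b (c (k + 1)))⁻¹ * y (c (k + 1))).prod *
      (y (c m))⁻¹ := by
  induction m with
  | zero => simp [wd]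
  | succ m ih =>
    simp only [wd]
    rw [ih, List.range_succ, List.map_append, List.prod_append]
    simp only [List.map_cons, List.map_nil, List.prod_cons, List.prod_nil, mul_one]
    group

end prod

section crit
variable {K : Cx} [Finite K.V] [Finite K.R] {τ : K.R → ℕ} {F : K.R → K.V → ℤ} {D : ℤ}

/-- the letter of a node: from the chosen corner to the other one -/
noncomputable def lt (K : Cx) (τ : K.R → ℕ) (p : Nd K τ) : K.Pi :=
  (pre K p.1.1 p.1.2)⁻¹ * pre K p.1.1 (τ p.1.1)

/-- **The general criterion.** -/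
theorem asph_of [DecidableEq K.R] (h : K.Pi →* Multiplicative ℝ) (hD : D ≠ 0)
    (hF : ∀ e f, ev (F f) (crn K e (τ e)) = if e = f then D else 0)
    (hτ : ∀ j, τ j < (word K j).length)
    (hneg : ∀ (m : ℕ) (c : ℕ → Nd K τ), Cl (RN K τ F) m c → 0 ≤ PR (WK K τ h) c m)
    (ρ : Nd K τ → Nd K τ)
    (hρ : ∀ (m : ℕ) (c : ℕ → Nd K τ), Cl (RN K τ F) m c → PR (WK K τ h) c m ≤ 0 →
      ∀ k, c (k + 1) = ρ (c k))
    (hW : ∀ (m : ℕ) (c : ℕ → Nd K τ), Cl (RN K τ F) m c → PR (WK K τ h) c m ≤ 0 →
      ∀ n, 0 < n → ((List.range m).map fun k => lt K τ (c k)).prod ^ n ≠ 1) :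
    AllAsph K := by
  classical
  intro K' i
  have hfin : Finite K'.V := Finite.of_injective i.v i.v.injective
  have := Fintype.ofFinite K'.V
  unfold Asph
  rw [injective_iff_map_eq_zero]
  intro z hz
  by_contra hne
  -- the data
  let row : K'.R × ℕ → K'.R := Prod.fst
  let nds : K'.R → Finset (K'.R × ℕ) := fun j =>
    ((Finset.range (word K' j).length).erase (τ (i.c j))).image fun k => (j, k)
  let N : K'.R × ℕ → K'.R → ℤ := fun p j₀ => ev (F (i.c j₀)) (crn K (i.c p.1) p.2)
  let y : K'.R → K'.Pi := fun j => pre K' j (τ (i.c j))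
  let b : K'.R × ℕ → K'.Pi := fun p => pre K' p.1 p.2
  have hrow : ∀ j, ∀ p ∈ nds j, row p = j := by
    intro j p hp
    obtain ⟨k, -, rfl⟩ := Finset.mem_image.1 hp
    rfl
  have hnds : ∀ p : K'.R × ℕ, p ∈ nds (row p) →
      p.2 < (word K (i.c p.1)).length ∧ p.2 ≠ τ (i.c p.1) := by
    intro p hp
    obtain ⟨k, hk, hkp⟩ := Finset.mem_image.1 hp
    have h1 : k = p.2 := congrArg Prod.snd hkp
    rw [h1, Finset.mem_erase, Finset.mem_range] at hk
    rw [len_map i]
    exact ⟨hk.2, hk.1⟩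
  -- the equations
  have heqs : ∀ j₀ ∈ z.support, D • (z j₀ * MonoidAlgebra.of ℤ K'.Pi (y j₀)) +
      ∑ j ∈ z.support, ∑ p ∈ nds j, N p j₀ • (z j * MonoidAlgebra.of ℤ K'.Pi (b p)) = 0 := by
    intro j₀ hj₀
    have h1 : ∀ v, ∑ j ∈ z.support, z j * fox K' (K'.r j) v = 0 := by
      intro v
      have h2 := congrFun hz v
      rw [Finsupp.linearCombination_apply, Finsupp.sum, Finset.sum_apply] at h2
      exact h2
    have h2 : ∑ j ∈ z.support, z j * SF K' (F (i.c j₀) ∘ i.v) (K'.r j) = 0 := by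
      unfold SF
      simp only [Finset.mul_sum, ← mul_assoc]
      rw [Finset.sum_comm]
      refine Finset.sum_eq_zero fun v _ => ?_
      rw [← Finset.sum_mul, h1, zero_mul]
    have h3 : ∀ j, SF K' (F (i.c j₀) ∘ i.v) (K'.r j) =
        (if j = j₀ then D else 0) • MonoidAlgebra.of ℤ K'.Pi (y j) +
          ∑ p ∈ nds j, N p j₀ • MonoidAlgebra.of ℤ K'.Pi (b p) := by
      intro j
      rw [SF_rel, ← Finset.add_sum_erase _ _ (Finset.mem_range.2 (by
        rw [← len_map i]
        exact hτ (i.c j)) : τ (i.c j) ∈ Finset.range (word K' j).length)]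
      congr 1
      · rw [ev_crn_map i, hF]
        by_cases h4 : j = j₀
        · rw [if_pos (by rw [h4]), if_pos h4]
        · rw [if_neg (fun h5 => h4 (i.c.injective h5)), if_neg h4]
      · simp only [nds]
        rw [Finset.sum_image]
        · refine Finset.sum_congr rfl fun k _ => ?_
          rw [ev_crn_map i]
        · intro k _ k' _ hkk
          exact congrArg Prod.snd hkk
    rw [← h2]
    have h4 : D • (z j₀ * MonoidAlgebra.of ℤ K'.Pi (y j₀)) =
        ∑ j ∈ z.support, z j * ((if j = j₀ then D else 0) • MonoidAlgebra.of ℤ K'.Pi (y j)) := by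
      rw [Finset.sum_eq_single j₀]
      · rw [if_pos rfl, mul_smul_comm]
      · intro j _ hj
        rw [if_neg hj, zero_smul, mul_zero]
      · intro h5
        exact absurd hj₀ h5
    rw [h4, ← Finset.sum_add_distrib]
    refine Finset.sum_congr rfl fun j _ => ?_
    rw [h3, mul_add, Finset.mul_sum]
    congr 1
    refine Finset.sum_congr rfl fun p _ => ?_
    rw [mul_smul_comm]
  -- closed walks go to closed walks
  let h' : K'.Pi →* Multiplicative ℝ := h.comp i.map
  have hnode : ∀ (m : ℕ) (c : ℕ → K'.R × ℕ), Cl (RR row nds N) m c → ∀ k,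
      (c k).2 < (word K (i.c (c k).1)).length ∧ (c k).2 ≠ τ (i.c (c k).1) := by
    intro m c hc k
    have h1 : c (k + m) = c k := hc.2.2 k
    obtain ⟨m', rfl⟩ : ∃ m', m = m' + 1 := ⟨m - 1, by have := hc.1; omega⟩
    have h2 := (hc.2.1 (k + m')).1
    have h3 : k + m' + 1 = k + (m' + 1) := by ring
    rw [h3, h1] at h2
    exact hnds _ h2
  let cc : ∀ (m : ℕ) (c : ℕ → K'.R × ℕ), Cl (RR row nds N) m c → ℕ → Nd K τ :=
    fun m c hc k => ⟨(i.c (c k).1, (c k).2), hnode m c hc k⟩
  have hcc : ∀ (m : ℕ) (c : ℕ → K'.R × ℕ) (hc : Cl (RR row nds N) m c),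
      Cl (RN K τ F) m (cc m c hc) := by
    intro m c hc
    refine ⟨hc.1, fun k => (hc.2.1 k).2, fun k => ?_⟩
    simp only [cc]
    have h1 := hc.2.2 k
    apply Subtype.ext
    simp only
    rw [h1]
  have hpre : ∀ j k, h' (pre K' j k) = h (pre K (i.c j) k) := by
    intro j k
    simp only [h', MonoidHom.comp_apply]
    rw [pre_map i]
  have hccw : ∀ (m : ℕ) (c : ℕ → K'.R × ℕ) (hc : Cl (RR row nds N) m c) (n : ℕ),
      PR (WK K τ h) (cc m c hc) n = PR (WT h' row y b) c n := by
    intro m c hc n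
    unfold PR
    refine Finset.sum_congr rfl fun k _ => ?_
    simp only [WT, WK, cc, y, b, row]
    rw [hpre, hpre]
  let ρ' : K'.R × ℕ → K'.R × ℕ := fun p =>
    if hp : ∃ (q : K'.R × ℕ) (h1 : p.2 < (word K (i.c p.1)).length ∧ p.2 ≠ τ (i.c p.1)),
      (i.c q.1, q.2) = (ρ ⟨(i.c p.1, p.2), h1⟩).1 then hp.choose else p
  obtain ⟨m, c, n, hc, hcw, hn, hcn⟩ := core h' row nds N y b hrow D hD z heqs hne
    (by
      intro m c hc
      rw [← hccw m c hc]
      exact hneg m _ (hcc m c hc)) ρ'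
    (by
      intro m c hc hw k
      rw [← hccw m c hc] at hw
      have h1 := hρ m _ (hcc m c hc) hw k
      have h2 := congrArg Subtype.val h1
      simp only [cc] at h2
      have hp : ∃ (q : K'.R × ℕ) (h1 : (c k).2 < (word K (i.c (c k).1)).length ∧
          (c k).2 ≠ τ (i.c (c k).1)),
          (i.c q.1, q.2) = (ρ ⟨(i.c (c k).1, (c k).2), h1⟩).1 := ⟨c (k + 1), hnode m c hc k, h2⟩
      simp only [ρ']
      rw [dif_pos hp]
      obtain ⟨h3, h4⟩ := hp.choose_spec
      rw [← h2] at h4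
      have h5 := congrArg Prod.fst h4
      have h6 := congrArg Prod.snd h4
      simp only at h5 h6
      exact (Prod.ext (i.c.injective h5) h6).symm)
  -- the product
  have hper : ∀ k, c (k + m) = c k := hc.2.2
  rw [wd_prod] at hcn
  have hcm : c m = c 0 := by
    have := hper 0
    rwa [zero_add] at this
  rw [hcm, conj_pow, conj_eq_one_iff] at hcn
  have hmap := congrArg i.map hcn
  rw [map_pow, map_one, map_list_prod, List.map_map] at hmap
  let d : ℕ → K'.R × ℕ := fun k => c (k + 1)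
  have hd : Cl (RR row nds N) m d := by
    refine ⟨hc.1, fun k => hc.2.1 (k + 1), fun k => ?_⟩
    simp only [d]
    rw [← hper (k + 1)]
    congr 1
    ring
  have hdw : PR (WK K τ h) (cc m d hd) m ≤ 0 := by
    rw [hccw m d hd]
    refine le_trans (le_of_eq ?_) hcw
    unfold PR
    have h3 := Finset.sum_range_succ (fun k => WT h' row y b (c k)) m
    have h4 := Finset.sum_range_succ' (fun k => WT h' row y b (c k)) m
    rw [hcm] at h3
    simp only [d]
    linarith
  refine hW m _ (hcc m d hd) hdw n hn ?_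
  rw [← hmap]
  congr 2
  refine List.map_congr_left fun k _ => ?_
  simp only [lt, cc, d, Function.comp_apply, map_mul, map_inv, y, b, row]
  rw [pre_map i, pre_map i]

end crit

section unique
variable {K : Cx} [Finite K.V] [Fintype K.R]

/-- **Exactly one forest of minimal height.** -/
theorem unique_min (h : K.Pi →* Multiplicative ℝ) (τ : K.R → ℕ) (hτ : IsForest K τ)
    (hmin : ∀ τ', IsForest K τ' → τ' ≠ τ → total K h τ < total K h τ') : AllAsph K := by
  classical
  obtain ⟨D, F, hD, hF⟩ := exists_dual (fun j => crn K j (τ j)) hτ.2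
  have hno : ∀ (m : ℕ) (c : ℕ → Nd K τ), Cl (RN K τ F) m c → ¬ PR (WK K τ h) c m ≤ 0 := by
    intro m c hc hw
    obtain ⟨S, π, -, hone, hS, -⟩ := exists_le hc hw
    have hinj : ∀ p ∈ S, ∀ q ∈ S, p.1.1 = q.1.1 → p = q :=
      fun p hp q hq hpq => one_inj hone hp hq hpq
    have h1 := hmin _ (forest_sw hD hF hτ.1 hone) (sw_ne hone.1 hinj)
    rw [total_sw h hinj] at h1
    linarith
  refine asph_of h hD hF hτ.1 (fun m c hc => (not_le.1 (hno m c hc)).le) id
    (fun m c hc hw => absurd hw (hno m c hc)) (fun m c hc hw => absurd hw (hno m c hc))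

end unique

end Pool.Agent.Helper78K9.GO4
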