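import Pool.Agent.Helper78K9.GO4.Main

set_option autoImplicit false

/-!
# Exactly two forests of minimal height
-/

namespace Pool.Agent.Helper78K9.GO4

open Function
open Pool.Agent.R655.LI
open Pool.Agent.Helper78K9.GO3 (Cl One Inj wd inj_mod exists_cyc)

/-- the 2-cells where two choices of corners differ -/
def dfr (K : Cx) [Fintype K.R] (τ τ' : K.R → ℕ) : Finset K.R :=
  Finset.univ.filter fun j => τ j ≠ τ' j

/-- The cyclic order of the 2-cells where the choices `τ` and `τ'` of corners differ: `e` is periodic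
with their number as the period, runs through these 2-cells, and if in the forest of `τ` the edge of
the corner `τ (e k)` is replaced by the edge of the corner `τ' (e (k + 1))`, the edges still form a
forest. -/
def IsOrder (K : Cx) [Fintype K.R] [DecidableEq K.R] (τ τ' : K.R → ℕ) (e : ℕ → K.R) : Prop :=
  (∀ k, e (k + (dfr K τ τ').card) = e k) ∧ (∀ k, τ (e k) ≠ τ' (e k)) ∧
    (∀ i j, i < j → j < i + (dfr K τ τ').card → e i ≠ e j) ∧
    ∀ k, LinearIndependent ℤ (Function.update (fun j => crn K j (τ j)) (e k)
      (crn K (e (k + 1)) (τ' (e (k + 1)))))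

/-- The product of the paths from the corners of `τ'` to the corners of `τ` in the 2-cells
`e 0, …, e (m - 1)`. -/
noncomputable def wrd (K : Cx) (τ τ' : K.R → ℕ) (e : ℕ → K.R) (m : ℕ) : K.Pi :=
  ((List.range m).map fun k => (pre K (e k) (τ' (e k)))⁻¹ * pre K (e k) (τ (e k))).prod

section walk
variable {E : Type} [Finite E]

/-- a permutation of nonpositive weight contains a closed walk of nonpositive weight -/
lemma walk_of_perm {R : E → E → Prop} {w : E → ℝ} {S : Finset E} {τ : Equiv.Perm E}
    (hS : S.Nonempty) (h1 : ∀ x, x ∉ S → τ x = x) (h2 : ∀ x ∈ S, R x (τ x))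
    (h3 : ∑ x ∈ S, w x ≤ 0) : ∃ (m : ℕ) (e : ℕ → E), Cl R m e ∧ PR w e m ≤ 0 := by
  have hmem : ∀ x, x ∈ S ↔ τ x ∈ S := by
    intro x
    constructor
    · intro hx
      by_contra h
      have h4 := τ.injective (h1 _ h)
      rw [h4] at h
      exact h hx
    · intro hx
      by_contra h
      rw [h1 x h] at hx
      exact h hx
  have hmem' : ∀ k x, x ∈ S → (τ ^ k) x ∈ S := by
    intro k
    induction k with
    | zero => intro x hx; exact hx
    | succ k ih =>
      intro x hx
      rw [pow_succ', Equiv.Perm.mul_apply]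
      exact (hmem _).1 (ih x hx)
  have hN : 0 < orderOf τ := orderOf_pos τ
  have hsum : ∀ k, ∑ x ∈ S, w ((τ ^ k) x) = ∑ x ∈ S, w x := by
    intro k
    refine Finset.sum_bij (fun x _ => (τ ^ k) x) (fun x hx => hmem' k x hx) ?_ ?_ ?_
    · intro x _ y _ h
      exact (τ ^ k).injective h
    · intro y hy
      have h4 : (τ ^ k).symm y ∈ S := by
        have h5 : ∃ n, (τ ^ k).symm y = (τ ^ n) y := by
          have h6 : (τ ^ k)⁻¹ ∈ Submonoid.powers τ := by
            have h7 := isOfFinOrder_of_finite τ
            rw [h7.mem_powers_iff_mem_zpowers]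
            refine ⟨-(k : ℤ), ?_⟩
            change τ ^ (-(k : ℤ)) = _
            rw [zpow_neg, zpow_natCast]
          obtain ⟨n, hn⟩ := h6
          refine ⟨n, ?_⟩
          have h8 : τ ^ n = (τ ^ k)⁻¹ := hn
          rw [h8]
          rfl
        obtain ⟨n, hn⟩ := h5
        rw [hn]
        exact hmem' n y hy
      exact ⟨_, h4, Equiv.apply_symm_apply _ _⟩
    · intro x _
      rfl
  have htot : ∑ x ∈ S, ∑ k ∈ Finset.range (orderOf τ), w ((τ ^ k) x) ≤ 0 := by
    rw [Finset.sum_comm, Finset.sum_congr rfl fun k _ => hsum k, Finset.sum_const,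
      Finset.card_range, nsmul_eq_mul]
    exact mul_nonpos_of_nonneg_of_nonpos (by exact_mod_cast Nat.zero_le _) h3
  obtain ⟨x, hx, hxw⟩ : ∃ x ∈ S, ∑ k ∈ Finset.range (orderOf τ), w ((τ ^ k) x) ≤ 0 := by
    by_contra h
    push Not at h
    exact absurd htot (not_le.2 (Finset.sum_pos h hS))
  refine ⟨orderOf τ, fun k => (τ ^ k) x, ⟨hN, fun k => ?_, fun k => ?_⟩, hxw⟩
  · simp only
    rw [pow_succ', Equiv.Perm.mul_apply]
    exact h2 _ (hmem' k x hx)
  · simp only
    rw [pow_add, pow_orderOf_eq_one, mul_one]

end walk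

section span
variable {V R : Type} [Finite V] [Fintype R] [DecidableEq R]

/-- In the spanning case the dual functions separate the vectors with the sum zero. -/
theorem span_zero {u : R → V →₀ ℤ} {D : ℤ} {F : R → V → ℤ} (hD : D ≠ 0)
    (hF : ∀ e f, ev (F f) (u e) = if e = f then D else 0)
    (hcard : Nat.card V = Nat.card R + 1) (hu : ∀ e, ev (fun _ => 1) (u e) = 0) {w : V →₀ ℤ}
    (hw : ev (fun _ => 1) w = 0) (hwF : ∀ f, ev (F f) w = 0) : w = 0 := by
  classical
  have := Fintype.ofFinite V
  by_contra hne
  -- the square matrix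
  have hc : Fintype.card (Option R) = Fintype.card V := by
    rw [Fintype.card_option, ← Nat.card_eq_fintype_card, ← Nat.card_eq_fintype_card, hcard]
  let φ : V ≃ Option R := (Fintype.equivOfCardEq hc).symm
  let U : Option R → V →₀ ℤ := fun o => o.elim w u
  let M : Matrix V V ℤ := Matrix.of fun x v => U (φ x) v
  have hM : M.det = 0 := by
    refine Matrix.exists_mulVec_eq_zero_iff.1 ⟨fun _ => 1, ?_, ?_⟩
    · intro h0
      obtain ⟨v⟩ : Nonempty V := by
        by_contra hV
        rw [not_nonempty_iff] at hV
        apply hne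
        ext v
        exact hV.elim v
      exact one_ne_zero (congrFun h0 v)
    · funext x
      simp only [Matrix.mulVec, dotProduct, M, Matrix.of_apply, Pi.zero_apply]
      have h1 : ∀ o, ev (fun _ => 1) (U o) = 0 := by
        intro o
        cases o with
        | none => exact hw
        | some e => exact hu e
      have h2 := h1 (φ x)
      rw [ev_eq] at h2
      exact h2
  obtain ⟨X, hX, hX0⟩ := Matrix.exists_vecMul_eq_zero_iff.2 hM
  apply hX
  let x : Option R → ℤ := fun o => X (φ.symm o)
  have hx : ∑ o, x o • U o = 0 := by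
    ext v
    rw [Finsupp.finsetSum_apply]
    have h1 := congrFun hX0 v
    simp only [Matrix.vecMul, dotProduct, M, Matrix.of_apply, Pi.zero_apply] at h1
    rw [Finsupp.coe_zero, Pi.zero_apply, ← h1, ← Equiv.sum_comp φ]
    refine Finset.sum_congr rfl fun y _ => ?_
    simp only [x, Equiv.symm_apply_apply, Finsupp.smul_apply, smul_eq_mul]
  rw [Fintype.sum_option] at hx
  have hsome : ∀ f, x (some f) = 0 := by
    intro f
    have h1 := congrArg (ev (F f)) hx
    rw [map_add, map_sum, map_zero, map_smul] at h1
    have h2 : ev (F f) (U none) = 0 := hwF f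
    rw [h2, smul_zero, zero_add, Finset.sum_eq_single f] at h1
    · rw [map_smul] at h1
      have h3 : ev (F f) (U (some f)) = D := by
        change ev (F f) (u f) = D
        rw [hF, if_pos rfl]
      rw [h3, smul_eq_mul] at h1
      exact (mul_eq_zero.1 h1).resolve_right hD
    · intro e _ he
      rw [map_smul]
      have h3 : ev (F f) (U (some e)) = 0 := by
        change ev (F f) (u e) = 0
        rw [hF, if_neg he]
      rw [h3, smul_zero]
    · intro h
      exact absurd (Finset.mem_univ _) h
  have hnone : x none = 0 := by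
    have h1 : x none • w = 0 := by
      rw [Finset.sum_eq_zero (fun e _ => by rw [hsome e, zero_smul]), add_zero] at hx
      exact hx
    exact (smul_eq_zero.1 h1).resolve_right hne
  funext y
  have h1 : X y = x (φ y) := by simp [x]
  rw [h1]
  cases φ y with
  | none => exact hnone
  | some e => exact hsome e

/-- replacing one vector -/
theorem update_indep {u : R → V →₀ ℤ} {D : ℤ} {F : R → V → ℤ} (hD : D ≠ 0)
    (hF : ∀ e f, ev (F f) (u e) = if e = f then D else 0)
    (hcard : Nat.card V = Nat.card R + 1) (hu : ∀ e, ev (fun _ => 1) (u e) = 0) (f : R)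
    {v : V →₀ ℤ} (hv : ev (fun _ => 1) v = 0) :
    LinearIndependent ℤ (Function.update u f v) ↔ ev (F f) v ≠ 0 := by
  constructor
  · intro hli h0
    -- a relation
    have hw := span_zero hD hF hcard hu (w := D • v - ∑ e, ev (F e) v • u e) (by
        rw [map_sub, map_smul, hv, smul_zero, map_sum, Finset.sum_eq_zero, sub_zero]
        intro e _
        rw [map_smul, hu, smul_zero]) (by
        intro f'
        rw [map_sub, map_smul, map_sum, Finset.sum_eq_single f']
        · rw [map_smul, hF, if_pos rfl, smul_eq_mul, smul_eq_mul]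
          ring
        · intro e _ he
          rw [map_smul, hF, if_neg he, smul_zero]
        · intro h
          exact absurd (Finset.mem_univ _) h)
    have h1 : ∑ e, (if e = f then D else -ev (F e) v) • Function.update u f v e = 0 := by
      rw [← hw, ← Finset.add_sum_erase _ _ (Finset.mem_univ f), if_pos rfl,
        Function.update_self, sub_eq_add_neg, ← Finset.sum_neg_distrib,
        ← Finset.add_sum_erase (Finset.univ) (fun e => -(ev (F e) v • u e)) (Finset.mem_univ f),
        h0, zero_smul, neg_zero, zero_add]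
      congr 1
      refine Finset.sum_congr rfl fun e he => ?_
      have he' := Finset.ne_of_mem_erase he
      rw [if_neg he', Function.update_of_ne he', neg_smul]
    have h2 := Fintype.linearIndependent_iff.1 hli _ h1 f
    rw [if_pos rfl] at h2
    exact hD h2
  · intro h0
    rw [Fintype.linearIndependent_iff]
    intro x hx
    have hf : x f = 0 := by
      have h1 := congrArg (ev (F f)) hx
      rw [map_sum, map_zero, Finset.sum_eq_single f] at h1
      · rw [map_smul, Function.update_self, smul_eq_mul] at h1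
        exact (mul_eq_zero.1 h1).resolve_right h0
      · intro e _ he
        rw [map_smul, Function.update_of_ne he, hF, if_neg he, smul_zero]
      · intro h
        exact absurd (Finset.mem_univ _) h
    intro e
    by_cases he : e = f
    · rw [he, hf]
    · have h1 := congrArg (ev (F e)) hx
      rw [map_sum, map_zero, Finset.sum_eq_single e] at h1
      · rw [map_smul, Function.update_of_ne he, hF, if_pos rfl, smul_eq_mul] at h1
        exact (mul_eq_zero.1 h1).resolve_right hD
      · intro e' _ he'
        rw [map_smul]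
        by_cases h2 : e' = f
        · rw [h2, hf, zero_smul]
        · rw [Function.update_of_ne h2, hF, if_neg he', smul_zero]
      · intro h
        exact absurd (Finset.mem_univ _) h

end span

section two
variable {K : Cx}

lemma ev_one_ltr {j : K.R} {k : ℕ} (hk : k < (word K j).length) :
    ev (fun _ => 1) (ltr K j k) = 1 := by
  rw [ev_ltr]
  unfold FV
  rw [List.getElem?_eq_getElem hk]

lemma ev_one_crn {j : K.R} {k : ℕ} (hk : k < (word K j).length) :
    ev (fun _ => 1) (crn K j k) = 0 := by
  unfold crn
  rw [map_sub, ev_one_ltr hk, ev_one_ltr (Nat.mod_lt _ (by omega)), sub_self]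

variable [Finite K.V] [Fintype K.R] [DecidableEq K.R] {τ τ' : K.R → ℕ}

lemma prod_range_add {G : Type} [Group G] (f : ℕ → G) (a b : ℕ) :
    ((List.range (a + b)).map f).prod =
      ((List.range a).map f).prod * ((List.range b).map fun k => f (a + k)).prod := by
  rw [List.range_add, List.map_append, List.prod_append, List.map_map]
  rfl

lemma prod_period {G : Type} [Group G] (f : ℕ → G) {m : ℕ} (hf : ∀ k, f (k + m) = f k) (q a : ℕ) :
    ((List.range (q * m + a)).map f).prod =
      ((List.range m).map f).prod ^ q * ((List.range a).map f).prod := by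
  induction q with
  | zero => simp
  | succ q ih =>
    have h1 : (q + 1) * m + a = m + (q * m + a) := by ring
    have h2 : (fun k => f (m + k)) = f := by
      funext k
      rw [add_comm, hf]
    rw [h1, prod_range_add, h2, ih, pow_succ', mul_assoc]

/-- **Exactly two forests of minimal height.** -/
theorem two_min (hcard : Nat.card K.V = Nat.card K.R + 1) (h : K.Pi →* Multiplicative ℝ)
    (hτ : IsForest K τ) (hτ' : IsForest K τ') (hne : τ ≠ τ') (heq : total K h τ = total K h τ')
    (hmin : ∀ τ'', IsForest K τ'' → τ'' ≠ τ → τ'' ≠ τ' → total K h τ < total K h τ'') :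
    (∃ e, IsOrder K τ τ' e) ∧ ∀ e, IsOrder K τ τ' e →
      (∀ n, 0 < n → wrd K τ τ' e (dfr K τ τ').card ^ n ≠ 1) → AllAsph K := by
  classical
  obtain ⟨D, F, hD, hF⟩ := exists_dual (fun j => crn K j (τ j)) hτ.2
  have := Fintype.ofFinite (Nd K τ)
  have hu : ∀ e, ev (fun _ => 1) (crn K e (τ e)) = 0 := fun e => ev_one_crn (hτ.1 e)
  have hinj : ∀ {S : Finset (Nd K τ)} {π : Equiv.Perm (Nd K τ)}, One (RN K τ F) S π →
      ∀ p ∈ S, ∀ q ∈ S, p.1.1 = q.1.1 → p = q :=
    fun hone p hp q hq hpq => one_inj hone hp hq hpq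
  have hexch : ∀ (f : K.R) (q : Nd K τ), LinearIndependent ℤ
      (Function.update (fun j => crn K j (τ j)) f (crn K q.1.1 q.1.2)) ↔
        ev (F f) (crn K q.1.1 q.1.2) ≠ 0 :=
    fun f q => update_indep hD hF hcard hu f (ev_one_crn q.2.1)
  -- the node of a 2-cell where the choices differ
  let nd : ∀ j, τ j ≠ τ' j → Nd K τ := fun j hj => ⟨(j, τ' j), hτ'.1 j, Ne.symm hj⟩
  let S₀ : Finset (Nd K τ) := Finset.univ.filter fun p => p.1.2 = τ' p.1.1
  have hS₀ : ∀ p, p ∈ S₀ ↔ p.1.2 = τ' p.1.1 := by
    intro p
    simp [S₀]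
  have hS₀i : ∀ p ∈ S₀, ∀ q ∈ S₀, p.1.1 = q.1.1 → p = q := by
    intro p hp q hq hpq
    rw [hS₀] at hp hq
    refine Subtype.ext (Prod.ext hpq ?_)
    rw [hp, hq, hpq]
  have hS₀r : ∀ p ∈ S₀, τ p.1.1 ≠ τ' p.1.1 := by
    intro p hp h1
    rw [hS₀] at hp
    exact p.2.2 (by rw [hp, h1])
  have hsw : sw K τ S₀ = τ' := by
    funext j
    by_cases hj : τ j = τ' j
    · rw [sw_notin, hj]
      rintro ⟨p, hp, rfl⟩
      exact hS₀r p hp hj
    · exact sw_mem (K := K) (τ := τ) hS₀i (p := nd j hj) ((hS₀ _).2 rfl)
  have hcS : S₀.card = (dfr K τ τ').card := by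
    refine Finset.card_bij (fun p _ => p.1.1) ?_ ?_ ?_
    · intro p hp
      simp only [dfr, Finset.mem_filter, Finset.mem_univ, true_and]
      exact hS₀r p hp
    · intro p hp q hq hpq
      exact hS₀i p hp q hq hpq
    · intro j hj
      simp only [dfr, Finset.mem_filter, Finset.mem_univ, true_and] at hj
      exact ⟨nd j hj, (hS₀ _).2 rfl, rfl⟩
  have hneg : ∀ (m : ℕ) (c : ℕ → Nd K τ), Cl (RN K τ F) m c → 0 ≤ PR (WK K τ h) c m := by
    intro m c hc
    by_contra hw
    obtain ⟨S, π, hone, hS⟩ := exists_lt hc (not_le.1 hw)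
    have h1 := forest_sw hD hF hτ.1 hone
    have h2 := total_sw h (hinj hone)
    by_cases h3 : sw K τ S = τ'
    · rw [h3, ← heq] at h2
      linarith
    · have h4 := hmin _ h1 (sw_ne hone.1 (hinj hone)) h3
      linarith
  have huniq : ∀ (S : Finset (Nd K τ)) (π : Equiv.Perm (Nd K τ)), One (RN K τ F) S π →
      ∑ p ∈ S, WK K τ h p ≤ 0 → S = S₀ := by
    intro S π hone hS
    have h1 := forest_sw hD hF hτ.1 hone
    have h2 := total_sw h (hinj hone)
    by_cases h3 : sw K τ S = τ'
    · ext p
      constructor
      · intro hp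
        rw [hS₀, ← h3, sw_mem (hinj hone) hp]
      · intro hp
        have h4 : ∃ q ∈ S, q.1.1 = p.1.1 := by
          by_contra h5
          have h6 := sw_notin (K := K) (τ := τ) h5
          rw [h3] at h6
          exact hS₀r p hp h6.symm
        obtain ⟨q, hq, hqp⟩ := h4
        have h5 := sw_mem (hinj hone) hq
        rw [h3, hqp] at h5
        have h6 : q = p := by
          refine Subtype.ext (Prod.ext hqp ?_)
          rw [← h5, (hS₀ p).1 hp]
        rw [← h6]
        exact hq
    · have h4 := hmin _ h1 (sw_ne hone.1 (hinj hone)) h3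
      linarith
  have hS₀n : S₀.Nonempty := by
    by_contra h0
    rw [Finset.not_nonempty_iff_eq_empty] at h0
    apply hne
    rw [← hsw, h0]
    funext j
    rw [sw_notin]
    simp
  have hS₀w : ∑ p ∈ S₀, WK K τ h p ≤ 0 := by
    have h1 := total_sw h hS₀i
    rw [hsw, ← heq] at h1
    linarith
  -- a permutation of `S₀` along the exchanges
  obtain ⟨π₀, hp1, hp2⟩ : ∃ π₀ : Equiv.Perm (Nd K τ), (∀ p, p ∉ S₀ → π₀ p = p) ∧
      ∀ p ∈ S₀, RN K τ F p (π₀ p) := by
    let B : Matrix (Nd K τ) (Nd K τ) ℤ := Matrix.of fun p q =>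
      if p ∈ S₀ then (if q ∈ S₀ then ev (F q.1.1) (crn K p.1.1 p.1.2) else 0)
        else if p = q then 1 else 0
    have hB1 : ∀ p q, p ∈ S₀ → q ∈ S₀ → B p q = ev (F q.1.1) (crn K p.1.1 p.1.2) := by
      intro p q hp hq
      simp only [B, Matrix.of_apply, if_pos hp, if_pos hq]
    have hB2 : ∀ p q, p ∈ S₀ → q ∉ S₀ → B p q = 0 := by
      intro p q hp hq
      simp only [B, Matrix.of_apply, if_pos hp, if_neg hq]
    have hB3 : ∀ p q, p ∉ S₀ → B p q = if p = q then 1 else 0 := by
      intro p q hp
      simp only [B, Matrix.of_apply, if_neg hp]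
    have hdet : B.det ≠ 0 := by
      intro h0
      obtain ⟨X, hX, hX0⟩ := Matrix.exists_vecMul_eq_zero_iff.2 h0
      have e1 : ∀ q, q ∉ S₀ → X q = 0 := by
        intro q hq
        have h1 := congrFun hX0 q
        simp only [Matrix.vecMul, dotProduct, Pi.zero_apply] at h1
        rw [Finset.sum_eq_single q] at h1
        · rw [hB3 q q hq, if_pos rfl, mul_one] at h1
          exact h1
        · intro p _ hp
          by_cases hpS : p ∈ S₀
          · rw [hB2 p q hpS hq, mul_zero]
          · rw [hB3 p q hpS, if_neg hp, mul_zero]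
        · intro h2
          exact absurd (Finset.mem_univ _) h2
      have e2 : ∀ q ∈ S₀, ∑ p ∈ S₀, X p * ev (F q.1.1) (crn K p.1.1 p.1.2) = 0 := by
        intro q hq
        have h1 := congrFun hX0 q
        simp only [Matrix.vecMul, dotProduct, Pi.zero_apply] at h1
        rw [← h1, ← Finset.sum_subset (Finset.subset_univ S₀) (fun p _ hp => by
          rw [e1 p hp, zero_mul])]
        refine Finset.sum_congr rfl fun p hp => ?_
        rw [hB1 p q hp hq]
      -- the coefficients of a relation between the edges of `τ'`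
      let rows : Finset K.R := S₀.image fun p => p.1.1
      obtain ⟨s, hs⟩ : ∃ s : K.V →₀ ℤ, s = ∑ p ∈ S₀, X p • crn K p.1.1 p.1.2 := ⟨_, rfl⟩
      have hsF : ∀ f ∈ rows, ev (F f) s = 0 := by
        intro f hf
        obtain ⟨q, hq, rfl⟩ := Finset.mem_image.1 hf
        rw [hs, map_sum, ← e2 q hq]
        refine Finset.sum_congr rfl fun p _ => ?_
        rw [map_smul, smul_eq_mul]
      have hs1 : ev (fun _ => 1) s = 0 := by
        rw [hs, map_sum]
        refine Finset.sum_eq_zero fun p _ => ?_
        rw [map_smul, ev_one_crn p.2.1, smul_zero]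
      have hzero := span_zero hD hF hcard hu
        (w := D • s - ∑ e ∈ rowsᶜ, ev (F e) s • crn K e (τ e)) (by
          rw [map_sub, map_smul, hs1, smul_zero, map_sum, Finset.sum_eq_zero, sub_zero]
          intro e _
          rw [map_smul, hu, smul_zero]) (by
          intro f
          rw [map_sub, map_smul, map_sum]
          by_cases hf : f ∈ rows
          · rw [hsF f hf, smul_zero, zero_sub, neg_eq_zero]
            refine Finset.sum_eq_zero fun e he => ?_
            rw [map_smul, hF, if_neg, smul_zero]
            rintro rfl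
            exact (Finset.mem_compl.1 he) hf
          · rw [Finset.sum_eq_single f]
            · rw [map_smul, hF, if_pos rfl, smul_eq_mul, smul_eq_mul]
              ring
            · intro e _ he
              rw [map_smul, hF, if_neg he, smul_zero]
            · intro h1
              exact absurd (Finset.mem_compl.2 hf) h1)
      let x : K.R → ℤ := fun e => if he : τ e ≠ τ' e then D * X (nd e he) else -ev (F e) s
      have hrows : ∀ e, e ∈ rows ↔ τ e ≠ τ' e := by
        intro e
        constructor
        · intro he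
          obtain ⟨p, hp, rfl⟩ := Finset.mem_image.1 he
          exact hS₀r p hp
        · intro he
          exact Finset.mem_image.2 ⟨nd e he, (hS₀ _).2 rfl, rfl⟩
      have hx : ∑ e, x e • crn K e (τ' e) = 0 := by
        rw [← hzero, ← Finset.sum_add_sum_compl rows, sub_eq_add_neg]
        congr 1
        · rw [hs, Finset.sum_image (fun p hp q hq hpq => hS₀i p hp q hq hpq), Finset.smul_sum]
          refine Finset.sum_congr rfl fun p hp => ?_
          have h1 := hS₀r p hp
          have h2 : nd p.1.1 h1 = p := by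
            refine Subtype.ext (Prod.ext rfl ?_)
            exact ((hS₀ p).1 hp).symm
          simp only [x]
          rw [dif_pos h1, h2, mul_smul, ← (hS₀ p).1 hp]
        · rw [← Finset.sum_neg_distrib]
          refine Finset.sum_congr rfl fun e he => ?_
          have h1 : ¬ τ e ≠ τ' e := by
            rw [← hrows]
            exact Finset.mem_compl.1 he
          simp only [x]
          rw [dif_neg h1, neg_smul]
          push Not at h1
          rw [h1]
      have hx0 := Fintype.linearIndependent_iff.1 hτ'.2 x hx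
      apply hX
      funext p
      by_cases hp : p ∈ S₀
      · have h1 := hS₀r p hp
        have h2 : nd p.1.1 h1 = p := by
          refine Subtype.ext (Prod.ext rfl ?_)
          exact ((hS₀ p).1 hp).symm
        have h3 := hx0 p.1.1
        simp only [x] at h3
        rw [dif_pos h1, h2] at h3
        exact (mul_eq_zero.1 h3).resolve_left hD
      · exact e1 p hp
    rw [Matrix.det_apply'] at hdet
    obtain ⟨π₀, -, hπ⟩ := Finset.exists_ne_zero_of_sum_ne_zero hdet
    have h4 : ∀ p, B (π₀ p) p ≠ 0 := by
      intro p h0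
      apply hπ
      have h5 : ∏ i, B (π₀ i) i = 0 :=
        Finset.prod_eq_zero (f := fun p => B (π₀ p) p) (Finset.mem_univ p) h0
      rw [h5, mul_zero]
    have h5 : ∀ p, π₀ p ∉ S₀ → π₀ p = p := by
      intro p hp
      have h6 := h4 p
      rw [hB3 _ _ hp] at h6
      by_contra h7
      rw [if_neg h7] at h6
      exact h6 rfl
    refine ⟨π₀, ?_, ?_⟩
    · intro p hp
      refine h5 p ?_
      intro h7
      exact h4 p (hB2 _ _ h7 hp)
    · intro p hp
      have h7 : π₀ p ∈ S₀ := by
        by_contra h8
        rw [h5 p h8] at h8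
        exact h8 hp
      have h8 := h4 p
      rwa [hB1 _ _ h7 hp] at h8
  obtain ⟨m, c, hc1, hc2⟩ := walk_of_perm hS₀n hp1 hp2 hS₀w
  obtain ⟨S, π, c₁, hone, hSw, hcl, hinj₁, hSc, hπc, hcard₁⟩ := exists_le hc1 hc2
  have hS := huniq S π hone hSw
  subst hS
  have hzero := zero_walk hneg hone hcard₁ huniq
  refine ⟨⟨fun k => (c₁ k).1.1, ?_, ?_, ?_, ?_⟩, ?_⟩
  · intro k
    simp only
    rw [← hcS, hcl.2.2]
  · intro k
    exact hS₀r _ ((hSc _).2 ⟨k, rfl⟩)
  · intro i j hij hj he
    rw [← hcS] at hj
    exact hinj₁ i j hij hj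
      (hS₀i _ ((hSc _).2 ⟨i, rfl⟩) _ ((hSc _).2 ⟨j, rfl⟩) he)
  · intro k
    have h1 : (c₁ (k + 1)).1.2 = τ' (c₁ (k + 1)).1.1 := (hS₀ _).1 ((hSc _).2 ⟨k + 1, rfl⟩)
    rw [← h1, hexch]
    exact hcl.2.1 k
  · intro e ⟨h1, h2, h3, h4⟩ hW
    have hm0 : 0 < (dfr K τ τ').card := by
      rw [← hcS]
      exact Finset.card_pos.2 hS₀n
    let ce : ℕ → Nd K τ := fun k => nd (e k) (h2 k)
    have hece : ∀ k k', e k = e k' → ce k = ce k' := by
      intro k k' hk
      refine Subtype.ext (Prod.ext hk ?_)
      change τ' (e k) = τ' (e k')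
      rw [hk]
    have hecl : Cl (RN K τ F) (dfr K τ τ').card ce := by
      refine ⟨hm0, fun k => ?_, fun k => hece _ _ (h1 k)⟩
      have h5 := (hexch (e k) (ce (k + 1))).1 (h4 k)
      exact h5
    have hinje : Inj (dfr K τ τ').card ce := by
      intro i j hij hj he
      exact h3 i j hij hj (congrArg (fun p : Nd K τ => p.1.1) he)
    obtain ⟨S', π', g1, g2, g3, -, g5⟩ := exists_cyc (w := fun _ => 0) hecl hinje
    have hS' : S' = S₀ := by
      refine Finset.eq_of_subset_of_card_le ?_ ?_
      · intro x hx
        obtain ⟨k, rfl⟩ := (g1 x).1 hx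
        rw [hS₀]
      · rw [g5]
        exact le_of_eq hcS
    have hππ : π' = π := by
      refine hone.2.2.2 π' (by rw [← hS']; exact g3) ?_
      intro x hx
      rw [← hS'] at hx
      obtain ⟨k, rfl⟩ := (g1 x).1 hx
      rw [g2]
      exact hecl.2.1 k
    have hnext : ∀ k, ce (k + 1) = π (ce k) := by
      intro k
      rw [← hππ, g2]
    refine asph_of h hD hF hτ.1 hneg π (fun m c' hc' hw k => (hzero m c' hc' hw k).2) ?_
    intro m' c' hc' hw n hn heq'
    have hz := hzero m' c' hc' hw
    obtain ⟨a, ha⟩ := (g1 (c' 0)).1 (by rw [hS']; exact (hz 0).1)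
    have hea : ∀ k, c' k = ce (a + k) := by
      intro k
      induction k with
      | zero => exact ha.symm
      | succ k ih => rw [(hz k).2, ih, ← add_assoc, hnext]
    have hmod : (a + m') % (dfr K τ τ').card = a % (dfr K τ τ').card := by
      refine inj_mod hecl hinje ?_
      rw [← hea, ha]
      have := hc'.2.2 0
      rwa [zero_add] at this
    have hdvd : (dfr K τ τ').card ∣ m' := by
      have h5 : a + m' ≡ a + 0 [MOD (dfr K τ τ').card] := hmod
      have h6 := Nat.ModEq.add_left_cancel' a h5
      exact (Nat.modEq_zero_iff_dvd).1 h6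
    obtain ⟨q, hq⟩ := hdvd
    have hq0 : 0 < q := by
      rcases Nat.eq_zero_or_pos q with h5 | h5
      · rw [h5, mul_zero] at hq
        have := hc'.1
        omega
      · exact h5
    set f : ℕ → K.Pi := fun k => lt K τ (ce k) with hf
    have hfper : ∀ k, f (k + (dfr K τ τ').card) = f k := by
      intro k
      simp only [hf]
      rw [hecl.2.2]
    have e1 : ((List.range m').map fun k => lt K τ (c' k)).prod =
        ((List.range m').map fun k => f (a + k)).prod := by
      congr 1
      refine List.map_congr_left fun k _ => ?_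
      simp only [hf]
      rw [hea]
    have e2 := prod_range_add f a m'
    have e3 := prod_period f hfper q a
    have h7 : q * (dfr K τ τ').card + a = a + m' := by
      rw [hq]
      ring
    rw [h7, e2] at e3
    have e4 : ((List.range m').map fun k => f (a + k)).prod =
        (((List.range a).map f).prod)⁻¹ * ((List.range (dfr K τ τ').card).map f).prod ^ q *
          (((List.range a).map f).prod)⁻¹⁻¹ := by
      rw [inv_inv, mul_assoc, ← e3, inv_mul_cancel_left]
    rw [e1, e4, conj_pow, conj_eq_one_iff, ← pow_mul] at heq'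
    exact hW (q * n) (Nat.mul_pos hq0 hn) heq'

end two

end Pool.Agent.Helper78K9.GO4
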